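import Pool.Agent.Lib.MP_c95b3b_ag_PX.Top

/-! MP_c95b3b_ag, project (P), block X: the top part of a multiple vanishes where the top part
vanishes. -/

set_option autoImplicit false

open MvPolynomial

namespace Pool.Agent.PX

private theorem lead_sum (g h : MvPolynomial (Fin 2) ℂ) (w : (Fin 2 →₀ ℕ) → ℂ) :
    ∑ c ∈ (g * h).support, (g * h).coeff c * w c =
      ∑ a ∈ g.support, ∑ b ∈ h.support, g.coeff a * h.coeff b * w (a + b) := by
  classical
  set φ : MvPolynomial (Fin 2) ℂ →ₗ[ℂ] ℂ :=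
    (MvPolynomial.basisMonomials (Fin 2) ℂ).constr ℂ w with hφdef
  have hφm : ∀ (c : Fin 2 →₀ ℕ) (a : ℂ), φ (monomial c a) = a * w c := by
    intro c a
    have h1 : (monomial c a : MvPolynomial (Fin 2) ℂ) =
        a • (MvPolynomial.basisMonomials (Fin 2) ℂ) c := by
      rw [MvPolynomial.coe_basisMonomials, smul_monomial, smul_eq_mul, mul_one]
    rw [h1, map_smul, hφdef, Module.Basis.constr_basis, smul_eq_mul]
  have hφ : ∀ f : MvPolynomial (Fin 2) ℂ, φ f = ∑ c ∈ f.support, f.coeff c * w c := by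
    intro f
    conv_lhs => rw [f.as_sum]
    rw [map_sum]
    exact Finset.sum_congr rfl fun c _ => hφm c _
  rw [← hφ (g * h)]
  conv_lhs => rw [g.as_sum, h.as_sum]
  rw [Finset.sum_mul_sum, map_sum]
  refine Finset.sum_congr rfl fun a _ => ?_
  rw [map_sum]
  refine Finset.sum_congr rfl fun b _ => ?_
  rw [monomial_mul, hφm]

theorem lead_zero {g h : MvPolynomial (Fin 2) ℂ} {u : ℤ × ℤ} (hu : u ≠ 0) {z₁ z₂ : ℂ}
    (hz : TopZero g u z₁ z₂) : TopZero (g * h) u z₁ z₂ := by
  classical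
  intro κ hκ
  by_cases hg : g = 0
  · rw [hg, zero_mul]
    simp
  have hgs : g.support.Nonempty := by
    rw [Finset.nonempty_iff_ne_empty]
    intro h0
    exact hg (MvPolynomial.support_eq_empty.mp h0)
  obtain ⟨a0, ha0, hmax⟩ := g.support.exists_max_image (ky u) hgs
  have hb : ∀ b ∈ h.support, ky u a0 + ky u b ≤ κ := fun b hb => ky_le_of_mul hu hκ ha0 hb
  have h1 := lead_sum g h (fun c => if ky u c = κ then z₁ ^ c 0 * z₂ ^ c 1 else 0)
  have h2 : ∑ c ∈ (g * h).support with ky u c = κ, (g * h).coeff c * (z₁ ^ c 0 * z₂ ^ c 1) =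
      ∑ c ∈ (g * h).support, (g * h).coeff c *
        (if ky u c = κ then z₁ ^ c 0 * z₂ ^ c 1 else 0) := by
    rw [Finset.sum_filter]
    refine Finset.sum_congr rfl fun c _ => ?_
    split_ifs
    · rfl
    · rw [mul_zero]
  rw [h2, h1]
  have h3 : ∀ a ∈ g.support, ∀ b ∈ h.support,
      g.coeff a * h.coeff b *
        (if ky u (a + b) = κ then z₁ ^ (a + b) 0 * z₂ ^ (a + b) 1 else 0) =
      (if ky u a = ky u a0 then g.coeff a * (z₁ ^ a 0 * z₂ ^ a 1) else 0) *
        (if ky u b = κ - ky u a0 then h.coeff b * (z₁ ^ b 0 * z₂ ^ b 1) else 0) := by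
    intro a ha b hb'
    have h4 := hb b hb'
    have h5 := hmax a ha
    rw [ky_add]
    by_cases h6 : ky u a = ky u a0
    · by_cases h7 : ky u b = κ - ky u a0
      · rw [if_pos (by omega), if_pos h6, if_pos h7, Finsupp.add_apply, Finsupp.add_apply,
          pow_add, pow_add]
        ring
      · rw [if_neg (by omega), if_neg h7, mul_zero, mul_zero]
    · rw [if_neg (by omega), if_neg h6, mul_zero, zero_mul]
  rw [Finset.sum_congr rfl fun a ha => Finset.sum_congr rfl fun b hb' => h3 a ha b hb']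
  rw [← Finset.sum_mul_sum, ← Finset.sum_filter, hz (ky u a0) hmax, zero_mul]

end Pool.Agent.PX
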