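import Pool.Agent.Lib.MP_c95b3b_ag_PX.Defs

/-! MP_c95b3b_ag, project (P), block X: an algebraic zero of the top part of a polynomial in the
direction of an edge. -/

set_option autoImplicit false

open MvPolynomial

namespace Pool.Agent.PX

/-- a root of a polynomial with algebraic coefficients is algebraic -/
private theorem zero_alg_root {P : Polynomial ℂ} (hP : ∀ n, IsAlgebraic ℚ (P.coeff n))
    (h0 : P ≠ 0) {t : ℂ} (ht : P.eval t = 0) : IsAlgebraic ℚ t := by
  classical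
  have hl : P ∈ Polynomial.lifts (algebraMap (algebraicClosure ℚ ℂ) ℂ) := by
    rw [Polynomial.lifts_iff_coeff_lifts]
    intro n
    exact ⟨⟨P.coeff n, mem_algebraicClosure_iff.2 (hP n)⟩, rfl⟩
  obtain ⟨Q, hQ⟩ := (Polynomial.mem_lifts _).1 hl
  have hQ0 : Q ≠ 0 := by
    rintro rfl
    apply h0
    rw [← hQ, Polynomial.map_zero]
  have hal : IsAlgebraic (algebraicClosure ℚ ℂ) t := by
    refine ⟨Q, hQ0, ?_⟩
    rw [Polynomial.aeval_def, ← Polynomial.eval_map, hQ, ht]
  have : Algebra.IsAlgebraic ℚ (algebraicClosure ℚ ℂ) := algebraicClosure.isAlgebraic ℚ ℂ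
  exact hal.restrictScalars ℚ

theorem exists_torus_zero {f : MvPolynomial (Fin 2) ℂ} (alg : ∀ b, IsAlgebraic ℚ (f.coeff b))
    {u : ℤ × ℤ} (hu : IsCoprime u.1 u.2) (he : EdgeS f.support u) :
    ∃ z₁ z₂ : ℂ, z₁ ≠ 0 ∧ z₂ ≠ 0 ∧ IsAlgebraic ℚ z₁ ∧ IsAlgebraic ℚ z₂ ∧ TopZero f u z₁ z₂ := by
  classical
  obtain ⟨u1, u2⟩ := u
  obtain ⟨s1, s2, hs⟩ := hu
  obtain ⟨a, haS, b, hbS, hab, hkab, hmax⟩ := he
  simp only at hs
  set F : Finset (Fin 2 →₀ ℕ) := f.support.filter (fun c => ky (u1, u2) c = ky (u1, u2) a) with hF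
  have haF : a ∈ F := Finset.mem_filter.2 ⟨haS, rfl⟩
  have hbF : b ∈ F := Finset.mem_filter.2 ⟨hbS, hkab.symm⟩
  obtain ⟨c0, hc0F, hc0⟩ := Finset.exists_min_image F (fun c => ky (-u2, u1) c) ⟨a, haF⟩
  -- the integral parameter
  set k : (Fin 2 →₀ ℕ) → ℤ := fun c => s1 * ((c 1 : ℤ) - (c0 1 : ℤ)) - s2 * ((c 0 : ℤ) - (c0 0 : ℤ))
    with hk
  have hlin : ∀ c ∈ F, u1 * ((c 0 : ℤ) - (c0 0 : ℤ)) + u2 * ((c 1 : ℤ) - (c0 1 : ℤ)) = 0 := by
    intro c hc
    have h1 := (Finset.mem_filter.1 hc).2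
    have h2 := (Finset.mem_filter.1 hc0F).2
    simp only [ky] at h1 h2
    linear_combination h1 - h2
  have hd1 : ∀ c ∈ F, (c 1 : ℤ) - (c0 1 : ℤ) = u1 * k c := by
    intro c hc
    have h := hlin c hc
    simp only [hk]
    linear_combination s2 * h - ((c 1 : ℤ) - (c0 1 : ℤ)) * hs
  have hd0 : ∀ c ∈ F, (c 0 : ℤ) - (c0 0 : ℤ) = - (u2 * k c) := by
    intro c hc
    have h := hlin c hc
    simp only [hk]
    linear_combination s1 * h - ((c 0 : ℤ) - (c0 0 : ℤ)) * hs
  have hpos : 0 < u1 ^ 2 + u2 ^ 2 := by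
    rcases eq_or_ne u1 0 with h1 | h1
    · rcases eq_or_ne u2 0 with h2 | h2
      · rw [h1, h2] at hs
        simp at hs
      · positivity
    · positivity
  have hknn : ∀ c ∈ F, 0 ≤ k c := by
    intro c hc
    have h := hc0 c hc
    simp only [ky] at h
    have h1 := hd1 c hc
    have h0 := hd0 c hc
    by_contra hneg
    push Not at hneg
    have : (u1 ^ 2 + u2 ^ 2) * k c < 0 := mul_neg_of_pos_of_neg hpos hneg
    nlinarith
  have hinj : ∀ c ∈ F, ∀ c' ∈ F, k c = k c' → c = c' := by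
    intro c hc c' hc' h
    have h1 := hd1 c hc
    have h0 := hd0 c hc
    have h1' := hd1 c' hc'
    have h0' := hd0 c' hc'
    rw [h] at h1 h0
    ext i
    fin_cases i
    · have : (c 0 : ℤ) = c' 0 := by linarith
      exact_mod_cast this
    · have : (c 1 : ℤ) = c' 1 := by linarith
      exact_mod_cast this
  have hk0 : k c0 = 0 := by simp [hk]
  -- the polynomial
  set P : Polynomial ℂ := ∑ c ∈ F, Polynomial.C (f.coeff c) * Polynomial.X ^ (k c).toNat with hP
  have hcoeff : ∀ c ∈ F, P.coeff (k c).toNat = f.coeff c := by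
    intro c hc
    rw [hP, Polynomial.finsetSum_coeff, Finset.sum_eq_single c]
    · simp
    · intro c' hc' hne
      rw [Polynomial.coeff_C_mul, Polynomial.coeff_X_pow, if_neg, mul_zero]
      intro h
      apply hne
      apply hinj c' hc' c hc
      have h1 := Int.toNat_of_nonneg (hknn c' hc')
      have h2 := Int.toNat_of_nonneg (hknn c hc)
      rw [← h1, ← h2, h]
    · intro h
      exact absurd hc h
  have hfne : ∀ c ∈ F, f.coeff c ≠ 0 := fun c hc =>
    MvPolynomial.mem_support_iff.1 (Finset.mem_filter.1 hc).1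
  have hP0 : P.coeff 0 ≠ 0 := by
    have h := hcoeff c0 hc0F
    rw [hk0] at h
    simp only [Int.toNat_zero] at h
    rw [h]
    exact hfne c0 hc0F
  have hPne : P ≠ 0 := by
    intro h
    rw [h] at hP0
    simp at hP0
  obtain ⟨c1, hc1F, hc1⟩ : ∃ c ∈ F, c ≠ c0 := by
    by_cases h : a = c0
    · exact ⟨b, hbF, fun hb => hab (h.trans hb.symm)⟩
    · exact ⟨a, haF, h⟩
  have hk1 : 0 < k c1 := by
    rcases (hknn c1 hc1F).lt_or_eq with h | h
    · exact h
    · exact absurd (hinj c1 hc1F c0 hc0F (by rw [← h, hk0])) hc1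
  have hdeg : P.degree ≠ 0 := by
    intro h
    have h1 := hcoeff c1 hc1F
    have h2 : P.natDegree = 0 := Polynomial.natDegree_eq_of_degree_eq_some h
    have h3 : P.coeff (k c1).toNat = 0 := by
      apply Polynomial.coeff_eq_zero_of_natDegree_lt
      rw [h2]
      omega
    exact hfne c1 hc1F (h1 ▸ h3)
  obtain ⟨t, ht⟩ := IsAlgClosed.exists_root P hdeg
  have ht' : P.eval t = 0 := ht
  have ht0 : t ≠ 0 := by
    rintro rfl
    rw [← Polynomial.coeff_zero_eq_eval_zero] at ht'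
    exact hP0 ht'
  have halg : IsAlgebraic ℚ t := by
    refine zero_alg_root (P := P) ?_ hPne ht'
    intro n
    rw [hP, Polynomial.finsetSum_coeff]
    have : ∀ c ∈ F, (Polynomial.C (f.coeff c) * Polynomial.X ^ (k c).toNat).coeff n ∈
        algebraicClosure ℚ ℂ := by
      intro c _
      rw [Polynomial.coeff_C_mul, Polynomial.coeff_X_pow]
      split_ifs
      · rw [mul_one]
        exact mem_algebraicClosure_iff.2 (alg c)
      · rw [mul_zero]
        exact zero_mem _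
    exact mem_algebraicClosure_iff.1 (sum_mem this)
  have hmem : t ∈ algebraicClosure ℚ ℂ := mem_algebraicClosure_iff.2 halg
  refine ⟨t ^ (-s2), t ^ s1, zpow_ne_zero _ ht0, zpow_ne_zero _ ht0,
    mem_algebraicClosure_iff.1 (zpow_mem hmem _), mem_algebraicClosure_iff.1 (zpow_mem hmem _), ?_⟩
  intro κ hκ
  have hMκ : ky (u1, u2) a ≤ κ := hκ a haS
  rcases hMκ.lt_or_eq with hlt | heq
  · apply Finset.sum_eq_zero
    intro c hc
    obtain ⟨hcS, hck⟩ := Finset.mem_filter.1 hc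
    have := hmax c hcS
    omega
  · subst heq
    have hterm : ∀ c ∈ F, f.coeff c * ((t ^ (-s2)) ^ c 0 * (t ^ s1) ^ c 1) =
        t ^ (s1 * (c0 1 : ℤ) - s2 * (c0 0 : ℤ)) * (f.coeff c * t ^ (k c).toNat) := by
      intro c hc
      have e1 : (t ^ (-s2)) ^ c 0 = t ^ ((-s2) * (c 0 : ℤ)) := by
        rw [zpow_mul, zpow_natCast]
      have e2 : (t ^ s1) ^ c 1 = t ^ (s1 * (c 1 : ℤ)) := by
        rw [zpow_mul, zpow_natCast]
      have e3 : t ^ (k c).toNat = t ^ (k c) := by
        rw [← zpow_natCast, Int.toNat_of_nonneg (hknn c hc)]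
      rw [e1, e2, e3, ← zpow_add₀ ht0, mul_left_comm, ← zpow_add₀ ht0]
      congr 2
      simp only [hk]
      ring
    rw [← hF, Finset.sum_congr rfl hterm, ← Finset.mul_sum]
    have : ∑ c ∈ F, f.coeff c * t ^ (k c).toNat = P.eval t := by
      rw [hP, Polynomial.eval_finsetSum]
      refine Finset.sum_congr rfl fun c _ => ?_
      simp
    rw [this, ht', mul_zero]

end Pool.Agent.PX
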