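import Pool.Agent.Lib.MP_c95b3b_ag_PX.Desc
import Pool.Agent.Lib.MP_c95b3b_ag_PX.Lead
import Pool.Agent.Lib.MP_c95b3b_ag_PX.Zero
import Pool.Agent.Lib.MP_c95b3b_ag_PC.Defs

/-! MP_c95b3b_ag, project (P), block X: the condition `ind` of the structure `Crv`. -/

set_option autoImplicit false

open MvPolynomial

namespace Pool.Agent.PX

private theorem ind_mk_zero (i j : ℕ) : mk i j 0 = i := by
  simp [mk]

private theorem ind_mk_one (i j : ℕ) : mk i j 1 = j := by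
  simp [mk]

private theorem ind_ky (u : ℤ × ℤ) {a : ℤ × ℤ} {N : ℕ} (h1 : 0 ≤ a.1 + N) (h2 : 0 ≤ a.2 + N) :
    ky u (mk (a.1 + N).toNat (a.2 + N).toNat) = PC.pr u a + N * (u.1 + u.2) := by
  rw [ky, ind_mk_zero, ind_mk_one, Int.toNat_of_nonneg h1, Int.toNat_of_nonneg h2, PC.pr]
  ring

private theorem ind_pow {z : ℂ} (hz : z ≠ 0) {k : ℤ} {N : ℕ} (h : 0 ≤ k + N) :
    z ^ (k + N).toNat = z ^ N * z ^ k := by
  rw [← zpow_natCast z (k + N).toNat, Int.toNat_of_nonneg h, zpow_add₀ hz, zpow_natCast, mul_comm]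

private theorem ind_mono {z₁ z₂ : ℂ} (hz₁ : z₁ ≠ 0) (hz₂ : z₂ ≠ 0) {a : ℤ × ℤ} {N : ℕ}
    (h1 : 0 ≤ a.1 + N) (h2 : 0 ≤ a.2 + N) :
    z₁ ^ (mk (a.1 + N).toNat (a.2 + N).toNat) 0 * z₂ ^ (mk (a.1 + N).toNat (a.2 + N).toNat) 1 =
      (z₁ * z₂) ^ N * (z₁ ^ a.1 * z₂ ^ a.2) := by
  rw [ind_mk_zero, ind_mk_one, ind_pow hz₁ h1, ind_pow hz₂ h2, mul_pow]
  ring

private theorem ind_sum {ι : Type} (s : Finset ι) (e : ι → (Fin 2 →₀ ℕ)) (c : ι → ℂ)
    (w : (Fin 2 →₀ ℕ) → ℂ) :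
    ∑ b ∈ (∑ a ∈ s, (monomial (e a) (c a) : MvPolynomial (Fin 2) ℂ)).support,
      (∑ a ∈ s, (monomial (e a) (c a) : MvPolynomial (Fin 2) ℂ)).coeff b * w b =
      ∑ a ∈ s, c a * w (e a) := by
  classical
  set φ : MvPolynomial (Fin 2) ℂ →ₗ[ℂ] ℂ :=
    (MvPolynomial.basisMonomials (Fin 2) ℂ).constr ℂ w with hφdef
  have hφm : ∀ (c : Fin 2 →₀ ℕ) (a : ℂ), φ (monomial c a) = a * w c := by
    intro c a
    have h1 : (monomial c a : MvPolynomial (Fin 2) ℂ) =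
        a • (MvPolynomial.basisMonomials (Fin 2) ℂ) c := by
      rw [MvPolynomial.coe_basisMonomials, smul_monomial, smul_eq_mul, mul_one]
    rw [h1, map_smul, hφdef, Module.Basis.constr_basis, smul_eq_mul]
  have hφ : ∀ f : MvPolynomial (Fin 2) ℂ, φ f = ∑ c ∈ f.support, f.coeff c * w c := by
    intro f
    conv_lhs => rw [f.as_sum]
    rw [map_sum]
    exact Finset.sum_congr rfl fun c _ => hφm c _
  rw [← hφ, map_sum]
  exact Finset.sum_congr rfl fun a _ => hφm _ _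

theorem ind_of {g : MvPolynomial (Fin 2) ℂ} (hg : Irreducible g)
    (alg : ∀ b, IsAlgebraic ℚ (g.coeff b)) (E : Subfield ℂ) (x y : ℂ) (hE : IsAlgClosed E)
    (hx : Transcendental E x) (hy : y ≠ 0) (h : aeval ![x, y] g = 0) {u : ℤ × ℤ}
    (hu : IsCoprime u.1 u.2) (he : EdgeS g.support u) :
    ∃ z₁ z₂ : ℂ, z₁ ≠ 0 ∧ z₂ ≠ 0 ∧ IsAlgebraic ℚ z₁ ∧ IsAlgebraic ℚ z₂ ∧
      ∀ (s : Finset (ℤ × ℤ)) (c : ℤ × ℤ → ℂ) (κ : ℤ), (∀ a ∈ s, c a ∈ E) →
        (∀ a ∈ s, c a ≠ 0 → PC.pr u a ≤ κ) → ∑ a ∈ s, c a * (x ^ a.1 * y ^ a.2) = 0 →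
        ∑ a ∈ s with PC.pr u a = κ, c a * (z₁ ^ a.1 * z₂ ^ a.2) = 0 := by
  classical
  have hgE : ∀ b, g.coeff b ∈ E := fun b => mem_of_isAlgebraic hE (alg b)
  have hx0 : x ≠ 0 := by
    rintro rfl
    exact hx isAlgebraic_zero
  have hu0 : u ≠ 0 := by
    rintro rfl
    have h0 := isCoprime_zero_left.1 (show IsCoprime (0 : ℤ) 0 from hu)
    exact not_isUnit_zero h0
  obtain ⟨z₁, z₂, hz₁, hz₂, ha₁, ha₂, htop⟩ := exists_torus_zero alg hu he
  refine ⟨z₁, z₂, hz₁, hz₂, ha₁, ha₂, ?_⟩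
  intro s c κ hcE hκ hsum
  set N : ℕ := ∑ a ∈ s, (a.1.natAbs + a.2.natAbs) with hN
  have hNle : ∀ a ∈ s, a.1.natAbs + a.2.natAbs ≤ N := fun a ha =>
    Finset.single_le_sum (f := fun a : ℤ × ℤ => a.1.natAbs + a.2.natAbs)
      (fun _ _ => Nat.zero_le _) ha
  have hn1 : ∀ a ∈ s, 0 ≤ a.1 + N := by
    intro a ha
    have := hNle a ha
    omega
  have hn2 : ∀ a ∈ s, 0 ≤ a.2 + N := by
    intro a ha
    have := hNle a ha
    omega
  set e : ℤ × ℤ → (Fin 2 →₀ ℕ) := fun a => mk (a.1 + N).toNat (a.2 + N).toNat with hedef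
  set G : MvPolynomial (Fin 2) ℂ := ∑ a ∈ s, monomial (e a) (c a) with hG
  have hGc : ∀ b, G.coeff b = ∑ a ∈ s, if e a = b then c a else 0 := by
    intro b
    rw [hG, coeff_sum]
    exact Finset.sum_congr rfl fun a _ => coeff_monomial _ _ _
  have hGE : ∀ b, G.coeff b ∈ E := by
    intro b
    rw [hGc]
    refine E.sum_mem fun a ha => ?_
    split_ifs
    · exact hcE a ha
    · exact E.zero_mem
  have hG0 : aeval ![x, y] G = 0 := by
    have h1 : aeval ![x, y] G = ∑ a ∈ s, (x * y) ^ N * (c a * (x ^ a.1 * y ^ a.2)) := by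
      rw [hG, map_sum]
      refine Finset.sum_congr rfl fun a ha => ?_
      rw [aeval_monomial, Finsupp.prod_fintype _ _ (fun i => pow_zero _), Fin.prod_univ_two]
      simp only [Matrix.cons_val_zero, Matrix.cons_val_one]
      rw [ind_mono hx0 hy (hn1 a ha) (hn2 a ha)]
      simp only [Algebra.algebraMap_self, RingHom.id_apply]
      ring
    rw [h1, ← Finset.mul_sum, hsum, mul_zero]
  obtain ⟨q, hq⟩ := dvd_subfield hg hgE hGE hx h hG0
  have hT : TopZero G u z₁ z₂ := by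
    rw [hq]
    exact lead_zero hu0 htop
  have hκ' : ∀ b ∈ G.support, ky u b ≤ κ + N * (u.1 + u.2) := by
    intro b hb
    rw [mem_support_iff, hGc] at hb
    obtain ⟨a, ha, hab⟩ := Finset.exists_ne_zero_of_sum_ne_zero hb
    split_ifs at hab with hea
    · rw [← hea, hedef]
      rw [ind_ky u (hn1 a ha) (hn2 a ha)]
      have := hκ a ha hab
      omega
    · exact absurd rfl hab
  have hfin := hT (κ + N * (u.1 + u.2)) hκ'
  rw [Finset.sum_filter] at hfin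
  have h2 : ∑ b ∈ G.support, (if ky u b = κ + N * (u.1 + u.2) then
      G.coeff b * (z₁ ^ b 0 * z₂ ^ b 1) else 0) =
      ∑ b ∈ G.support, G.coeff b * (if ky u b = κ + N * (u.1 + u.2) then
        z₁ ^ b 0 * z₂ ^ b 1 else 0) := by
    refine Finset.sum_congr rfl fun b _ => ?_
    rw [mul_ite, mul_zero]
  rw [h2, ind_sum s e c] at hfin
  have h3 : ∀ a ∈ s, c a * (if ky u (e a) = κ + N * (u.1 + u.2) then
      z₁ ^ (e a) 0 * z₂ ^ (e a) 1 else 0) =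
      (z₁ * z₂) ^ N * (if PC.pr u a = κ then c a * (z₁ ^ a.1 * z₂ ^ a.2) else 0) := by
    intro a ha
    have h4 : (ky u (e a) = κ + N * (u.1 + u.2)) ↔ PC.pr u a = κ := by
      rw [hedef, ind_ky u (hn1 a ha) (hn2 a ha)]
      constructor
      · intro h5
        linarith
      · intro h5
        rw [h5]
    by_cases h5 : PC.pr u a = κ
    · rw [if_pos (h4.2 h5), if_pos h5, hedef, ind_mono hz₁ hz₂ (hn1 a ha) (hn2 a ha)]
      ring
    · rw [if_neg (fun h6 => h5 (h4.1 h6)), if_neg h5, mul_zero, mul_zero]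
  rw [Finset.sum_congr rfl h3, ← Finset.mul_sum] at hfin
  rw [Finset.sum_filter]
  exact (mul_eq_zero.1 hfin).resolve_left (pow_ne_zero _ (mul_ne_zero hz₁ hz₂))

end Pool.Agent.PX
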