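import Pool.Agent.Lib.MP_c95b3b_ag_PX.Iso
import Pool.Agent.Lib.MP_c95b3b_ag_PT.Defs

/-! MP_c95b3b_ag, project (P), block X: a log-finite curve with a point in the torus is not given
by a polynomial in one monomial. -/

set_option autoImplicit false

open MvPolynomial

namespace Pool.Agent.PX

/-- the point of the circle -/
private noncomputable def logU (w : ℤ) (n : ℕ) : ℂ := Complex.exp (((n : ℝ) * (w : ℝ) : ℝ) * Complex.I)

private theorem logU_norm (w : ℤ) (n : ℕ) : ‖logU w n‖ = 1 := Complex.norm_exp_ofReal_mul_I _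

private theorem logU_pow (w : ℤ) (n k : ℕ) :
    logU w n ^ k = Complex.exp (((n : ℝ) * (w * (k : ℤ) : ℤ) : ℝ) * Complex.I) := by
  rw [logU, ← Complex.exp_nat_mul]
  congr 1
  push_cast
  ring

private theorem logU_mul (w₁ w₂ : ℤ) (n k l : ℕ) :
    logU w₁ n ^ k * logU w₂ n ^ l =
      Complex.exp (((n : ℝ) * (w₁ * (k : ℤ) + w₂ * (l : ℤ) : ℤ) : ℝ) * Complex.I) := by
  rw [logU_pow, logU_pow, ← Complex.exp_add]
  congr 1
  push_cast
  ring

private theorem logU_inj {w : ℤ} (hw : w ≠ 0) {m n : ℕ} (h : logU w m = logU w n) : m = n := by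
  rw [logU, logU, Complex.exp_eq_exp_iff_exists_int] at h
  obtain ⟨k, hk⟩ := h
  have h1 : (((m : ℝ) * (w : ℝ) : ℝ) : ℂ) = (((n : ℝ) * (w : ℝ) + k * (2 * Real.pi) : ℝ) : ℂ) := by
    apply mul_right_cancel₀ Complex.I_ne_zero
    rw [hk]
    push_cast
    ring
  have h2 : (m : ℝ) * (w : ℝ) = (n : ℝ) * (w : ℝ) + k * (2 * Real.pi) := Complex.ofReal_injective h1
  by_contra hne
  have hd : ((m : ℤ) - (n : ℤ)) * w ≠ 0 := by
    refine mul_ne_zero (fun h0 => hne ?_) hw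
    exact_mod_cast sub_eq_zero.1 h0
  have hk0 : k ≠ 0 := by
    rintro rfl
    apply hd
    have h3 : ((m : ℝ) - (n : ℝ)) * (w : ℝ) = 0 := by
      rw [sub_mul, h2]
      simp
    exact_mod_cast h3
  refine irrational_pi ⟨(((m : ℤ) - (n : ℤ)) * w : ℤ) / ((2 * k : ℤ) : ℚ), ?_⟩
  have hk1 : (k : ℝ) ≠ 0 := by exact_mod_cast hk0
  push_cast
  rw [div_eq_iff (by simpa using hk1)]
  linear_combination h2

theorem wide_of_logFin {f : Polynomial (Polynomial ℂ)} (fin : PT.LogFin f)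
    (nd : ∃ x y : ℂ, x ≠ 0 ∧ y ≠ 0 ∧ f.evalEval x y = 0) : Wide ((e2 ℂ).symm f).support := by
  obtain ⟨x, y, hx, hy, h0⟩ := nd
  intro w hw
  by_contra hcon
  have hcon' : ∀ a ∈ ((e2 ℂ).symm f).support, ∀ b ∈ ((e2 ℂ).symm f).support,
      ky w a = ky w b := by
    intro a ha b hb
    by_contra hab
    exact hcon ⟨a, ha, b, hb, hab⟩
  have hval : ∀ u v : ℂ, f.evalEval u v = ∑ c ∈ ((e2 ℂ).symm f).support,
      ((e2 ℂ).symm f).coeff c * (u ^ c 0 * v ^ c 1) := by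
    intro u v
    have h1 := e2_evalEval ((e2 ℂ).symm f) u v
    rw [AlgEquiv.apply_symm_apply] at h1
    rw [h1, aeval_sum]
    rfl
  obtain ⟨κ, hκ⟩ : ∃ κ : ℤ, ∀ c ∈ ((e2 ℂ).symm f).support, ky w c = κ := by
    rcases ((e2 ℂ).symm f).support.eq_empty_or_nonempty with he | ⟨a, ha⟩
    · exact ⟨0, fun c hc => by rw [he] at hc; exact absurd hc (Finset.notMem_empty c)⟩
    · exact ⟨ky w a, fun c hc => hcon' c hc a ha⟩
  have hrot : ∀ n : ℕ, f.evalEval (x * logU w.1 n) (y * logU w.2 n) = 0 := by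
    intro n
    have h1 : f.evalEval (x * logU w.1 n) (y * logU w.2 n) =
        Complex.exp (((n : ℝ) * (κ : ℤ) : ℝ) * Complex.I) * f.evalEval x y := by
      rw [hval, hval, Finset.mul_sum]
      refine Finset.sum_congr rfl fun c hc => ?_
      have h2 := logU_mul w.1 w.2 n (c 0) (c 1)
      have h3 : w.1 * ((c 0 : ℕ) : ℤ) + w.2 * ((c 1 : ℕ) : ℤ) = κ := hκ c hc
      rw [h3] at h2
      rw [← h2, mul_pow, mul_pow]
      ring
    rw [h1, h0, mul_zero]
  have hfin := fin ‖x‖ ‖y‖ (norm_pos_iff.2 hx) (norm_pos_iff.2 hy)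
  refine Set.infinite_of_injective_forall_mem
    (f := fun n : ℕ => ((x * logU w.1 n, y * logU w.2 n) : ℂ × ℂ)) ?_ (fun n => ?_) hfin
  · intro m n hmn
    have h1 : x * logU w.1 m = x * logU w.1 n := congrArg Prod.fst hmn
    have h2 : y * logU w.2 m = y * logU w.2 n := congrArg Prod.snd hmn
    have h1' := mul_left_cancel₀ hx h1
    have h2' := mul_left_cancel₀ hy h2
    by_cases hw1 : w.1 = 0
    · refine logU_inj (w := w.2) (fun hw2 => hw ?_) h2'
      exact Prod.ext hw1 hw2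
    · exact logU_inj hw1 h1'
  · refine ⟨hrot n, ?_, ?_⟩
    · change ‖x * logU w.1 n‖ = ‖x‖
      rw [norm_mul, logU_norm, mul_one]
    · change ‖y * logU w.2 n‖ = ‖y‖
      rw [norm_mul, logU_norm, mul_one]

private theorem log_degreeOf {f : MvPolynomial (Fin 2) ℂ} {i : Fin 2}
    (h : ∃ a ∈ f.support, ∃ b ∈ f.support, a i ≠ b i) : 0 < f.degreeOf i := by
  obtain ⟨a, ha, b, hb, hab⟩ := h
  rw [degreeOf_eq_sup]
  have h1 : a i ≤ f.support.sup fun m => m i := Finset.le_sup (f := fun m : Fin 2 →₀ ℕ => m i) ha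
  have h2 : b i ≤ f.support.sup fun m => m i := Finset.le_sup (f := fun m : Fin 2 →₀ ℕ => m i) hb
  omega

theorem degreeOf_pos {f : MvPolynomial (Fin 2) ℂ} (h : Wide f.support) :
    0 < f.degreeOf 0 ∧ 0 < f.degreeOf 1 := by
  constructor
  · obtain ⟨a, ha, b, hb, hab⟩ := h (1, 0) (by simp)
    refine log_degreeOf ⟨a, ha, b, hb, fun h0 => hab ?_⟩
    simp [ky, h0]
  · obtain ⟨a, ha, b, hb, hab⟩ := h (0, 1) (by simp)
    refine log_degreeOf ⟨a, ha, b, hb, fun h0 => hab ?_⟩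
    simp [ky, h0]

end Pool.Agent.PX
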