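import Pool.Agent.Lib.MP_c95b3b_ag_PX.Defs

/-! MP_c95b3b_ag, project (P), block X: there are only finitely many edges. -/

set_option autoImplicit false

open MvPolynomial

namespace Pool.Agent.PX

private theorem rays_bound {N p q u v : ℤ} (hp : |p| ≤ N) (hq : |q| ≤ N) (hpq : ¬(p = 0 ∧ q = 0))
    (hc : IsCoprime u v) (h : u * p + v * q = 0) : |u| ≤ N := by
  have hN : 0 ≤ N := (abs_nonneg p).trans hp
  by_cases hq0 : q = 0
  · have hp0 : p ≠ 0 := fun h0 => hpq ⟨h0, hq0⟩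
    have h1 : u * p = 0 := by
      rw [hq0, mul_zero, add_zero] at h
      exact h
    rcases mul_eq_zero.1 h1 with h2 | h2
    · rw [h2, abs_zero]
      exact hN
    · exact absurd h2 hp0
  · have h1 : u ∣ v * q := ⟨-p, by linear_combination h⟩
    have h2 : u ∣ q := hc.dvd_of_dvd_mul_left h1
    have h3 : |u| ∣ |q| := (abs_dvd_abs u q).2 h2
    exact (Int.le_of_dvd (abs_pos.2 hq0) h3).trans hq

theorem finite_edges (S : Finset (Fin 2 →₀ ℕ)) :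
    {u : ℤ × ℤ | IsCoprime u.1 u.2 ∧ EdgeS S u}.Finite := by
  set N : ℤ := ((∑ a ∈ S, (a 0 + a 1) : ℕ) : ℤ) with hN
  have hle : ∀ a ∈ S, ((a 0 : ℕ) : ℤ) + ((a 1 : ℕ) : ℤ) ≤ N := by
    intro a ha
    have h1 : a 0 + a 1 ≤ ∑ a ∈ S, (a 0 + a 1) :=
      Finset.single_le_sum (f := fun a : Fin 2 →₀ ℕ => a 0 + a 1) (fun _ _ => Nat.zero_le _) ha
    rw [hN]
    exact_mod_cast h1
  refine Set.Finite.subset ((Set.finite_Icc (-N) N).prod (Set.finite_Icc (-N) N)) ?_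
  rintro ⟨u, v⟩ ⟨hc, a, ha, b, hb, hab, hk, -⟩
  have h1 := hle a ha
  have h2 := hle b hb
  have ha0 : (0 : ℤ) ≤ ((a 0 : ℕ) : ℤ) := Int.natCast_nonneg _
  have ha1 : (0 : ℤ) ≤ ((a 1 : ℕ) : ℤ) := Int.natCast_nonneg _
  have hb0 : (0 : ℤ) ≤ ((b 0 : ℕ) : ℤ) := Int.natCast_nonneg _
  have hb1 : (0 : ℤ) ≤ ((b 1 : ℕ) : ℤ) := Int.natCast_nonneg _
  have hp : |((a 0 : ℕ) : ℤ) - ((b 0 : ℕ) : ℤ)| ≤ N := by
    rw [abs_le]
    constructor <;> linarith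
  have hq : |((a 1 : ℕ) : ℤ) - ((b 1 : ℕ) : ℤ)| ≤ N := by
    rw [abs_le]
    constructor <;> linarith
  have hne : ¬(((a 0 : ℕ) : ℤ) - ((b 0 : ℕ) : ℤ) = 0 ∧ ((a 1 : ℕ) : ℤ) - ((b 1 : ℕ) : ℤ) = 0) := by
    rintro ⟨h3, h4⟩
    apply hab
    ext i
    fin_cases i
    · exact_mod_cast sub_eq_zero.1 h3
    · exact_mod_cast sub_eq_zero.1 h4
  have hsum : u * (((a 0 : ℕ) : ℤ) - ((b 0 : ℕ) : ℤ)) +
      v * (((a 1 : ℕ) : ℤ) - ((b 1 : ℕ) : ℤ)) = 0 := by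
    have h5 : u * ((a 0 : ℕ) : ℤ) + v * ((a 1 : ℕ) : ℤ) =
        u * ((b 0 : ℕ) : ℤ) + v * ((b 1 : ℕ) : ℤ) := hk
    linear_combination h5
  have hu := rays_bound hp hq hne hc hsum
  have hv := rays_bound hq hp (fun h => hne ⟨h.2, h.1⟩) hc.symm (by linear_combination hsum)
  exact ⟨abs_le.1 hu, abs_le.1 hv⟩

/-- a list of a given length with a given finite set of entries -/
theorem exists_list {α : Type} {s : Set α} (hs : s.Finite) (hne : s.Nonempty) {m : ℕ}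
    (hm : s.ncard ≤ m) : ∃ r : Fin m → α, (∀ j, r j ∈ s) ∧ ∀ a ∈ s, ∃ j, r j = a := by
  classical
  obtain ⟨a0, ha0⟩ := hne
  have hcard : hs.toFinset.card ≤ m := by
    rw [← Set.ncard_eq_toFinset_card s hs]
    exact hm
  let e := hs.toFinset.equivFin
  refine ⟨fun j => if h : (j : ℕ) < hs.toFinset.card then (e.symm ⟨j, h⟩ : α) else a0,
    fun j => ?_, fun a ha => ?_⟩
  · dsimp only
    split_ifs with h
    · exact hs.mem_toFinset.1 (e.symm ⟨j, h⟩).2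
    · exact ha0
  · let k := e ⟨a, hs.mem_toFinset.2 ha⟩
    refine ⟨⟨k, lt_of_lt_of_le k.2 hcard⟩, ?_⟩
    dsimp only
    rw [dif_pos k.2]
    change ((e.symm k : hs.toFinset) : α) = a
    rw [Equiv.symm_apply_apply]

end Pool.Agent.PX
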