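import Pool.Agent.Lib.MP_c95b3b_ag_PX.Desc

/-! MP_c95b3b_ag, project (P), block X: the curve over `ℤ`. -/

set_option autoImplicit false

open MvPolynomial

namespace Pool.Agent.PX

/-- the subfield of the algebraic numbers -/
private noncomputable def tildeE : Subfield ℂ := (algebraicClosure ℚ ℂ).toSubfield

private theorem tilde_mem {z : ℂ} : z ∈ tildeE ↔ IsAlgebraic ℚ z :=
  mem_algebraicClosure_iff (F := ℚ) (E := ℂ) (x := z)

private theorem tilde_alg_rat : Algebra.IsAlgebraic ℚ tildeE := by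
  refine ⟨fun z => ?_⟩
  have h : IsAlgebraic ℚ (z : ℂ) := tilde_mem.1 z.2
  exact (isAlgebraic_algebraMap_iff (R := ℚ) (S := tildeE) (A := ℂ)
    (algebraMap tildeE ℂ).injective).1 h

private theorem tilde_alg_int : Algebra.IsAlgebraic ℤ tildeE := by
  have h1 := tilde_alg_rat
  have h2 : Algebra.IsAlgebraic ℤ ℚ := IsLocalization.isAlgebraic ℚ (nonZeroDivisors ℤ)
  exact Algebra.IsAlgebraic.trans ℤ ℚ tildeE

private theorem tilde_trans {x : ℂ} (hx : Transcendental ℚ x) : Transcendental tildeE x := by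
  have h1 := tilde_alg_rat
  intro h
  exact hx (h.restrictScalars ℚ)

private theorem tilde_degreeOf_le {f G : MvPolynomial (Fin 2) ℂ} (h : f ∣ G) (hG : G ≠ 0)
    (i : Fin 2) : f.degreeOf i ≤ G.degreeOf i := by
  obtain ⟨q, rfl⟩ := h
  have h1 : f ≠ 0 := left_ne_zero_of_mul hG
  have h2 : q ≠ 0 := right_ne_zero_of_mul hG
  rw [degreeOf_mul_eq h1 h2]
  exact Nat.le_add_right _ _

/-- a polynomial with algebraic coefficients does not vanish at a transcendental number -/
private theorem tilde_eval_ne {p : Polynomial ℂ} (hp : p ≠ 0) (alg : ∀ n, IsAlgebraic ℚ (p.coeff n))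
    {x : ℂ} (hx : Transcendental ℚ x) : p.eval x ≠ 0 := by
  have h1 : p ∈ Polynomial.lifts (algebraMap tildeE ℂ) := by
    rw [Polynomial.lifts_iff_coeff_lifts]
    intro n
    exact ⟨⟨p.coeff n, tilde_mem.2 (alg n)⟩, rfl⟩
  obtain ⟨q, hq⟩ := (Polynomial.mem_lifts p).1 h1
  intro h
  have h2 : Polynomial.aeval x q = 0 := by
    rw [Polynomial.aeval_def, ← Polynomial.eval_map, hq]
    exact h
  have h3 : q = 0 := by
    by_contra hne
    exact tilde_trans hx ⟨q, hne, h2⟩
  apply hp
  rw [← hq, h3, Polynomial.map_zero]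

/-- there is a transcendental number -/
private theorem tilde_exists_trans : ∃ x : ℂ, Transcendental ℚ x := by
  by_contra h
  push Not at h
  apply not_countable_complex
  have h1 : {x : ℂ | IsAlgebraic ℚ x}.Countable := Algebraic.countable ℚ ℂ
  refine h1.mono fun x _ => ?_
  have h2 := h x
  simpa [Transcendental] using h2

/-- a generic point of the curve `f = 0` -/
theorem exists_generic {f : MvPolynomial (Fin 2) ℂ} (hf : Irreducible f)
    (alg : ∀ b, IsAlgebraic ℚ (f.coeff b)) (h0 : 0 < f.degreeOf 0) (h1 : 0 < f.degreeOf 1) :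
    ∃ x y : ℂ, Transcendental ℚ x ∧ Transcendental ℚ y ∧ aeval ![x, y] f = 0 := by
  obtain ⟨x, hx⟩ := tilde_exists_trans
  have hne : f.support.Nonempty := by
    rw [Finset.nonempty_iff_ne_empty, Ne, MvPolynomial.support_eq_empty]
    exact hf.ne_zero
  obtain ⟨b, hb, hbn⟩ := Finset.exists_mem_eq_sup f.support hne (fun m => m 1)
  rw [← MvPolynomial.degreeOf_eq_sup] at hbn
  -- the leading coefficient
  have hc : ((e2 ℂ f).coeff (b 1)) ≠ 0 := by
    intro h
    have h2 := e2_coeff f (b 0) (b 1)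
    rw [h, Polynomial.coeff_zero, mk_eq] at h2
    exact (MvPolynomial.mem_support_iff.1 hb) h2.symm
  have hev : ((e2 ℂ f).coeff (b 1)).eval x ≠ 0 := by
    refine tilde_eval_ne hc (fun n => ?_) hx
    rw [e2_coeff]
    exact alg _
  have hdeg : ((e2 ℂ f).map (Polynomial.evalRingHom x)).degree ≠ 0 := by
    intro h
    have h2 : ((e2 ℂ f).map (Polynomial.evalRingHom x)).coeff (b 1) ≠ 0 := by
      rw [Polynomial.coeff_map]
      exact hev
    have h3 := Polynomial.le_degree_of_ne_zero h2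
    rw [h] at h3
    have h4 : b 1 ≤ 0 := by exact_mod_cast h3
    omega
  obtain ⟨y, hy⟩ := IsAlgClosed.exists_root _ hdeg
  have hxy : aeval ![x, y] f = 0 := by
    rw [← e2_evalEval, ← Polynomial.map_evalRingHom_eval]
    exact hy
  refine ⟨x, y, hx, ?_, hxy⟩
  intro hya
  have hG : ∀ c, (X 1 - C y : MvPolynomial (Fin 2) ℂ).coeff c ∈ tildeE := by
    intro c
    rw [coeff_sub, coeff_X, coeff_C]
    refine tildeE.sub_mem ?_ ?_
    · split_ifs
      · exact tildeE.one_mem
      · exact tildeE.zero_mem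
    · split_ifs
      · exact tilde_mem.2 hya
      · exact tildeE.zero_mem
  have hG0 : (X 1 - C y : MvPolynomial (Fin 2) ℂ) ≠ 0 := by
    intro h
    have h2 := congrArg (coeff (Finsupp.single 1 1)) h
    have h3 : (0 : Fin 2 →₀ ℕ) ≠ Finsupp.single 1 1 := by
      intro h3
      have h4 := DFunLike.congr_fun h3 1
      simp at h4
    rw [coeff_sub, coeff_X, coeff_C, coeff_zero, if_neg h3, if_pos rfl, sub_zero] at h2
    exact one_ne_zero h2
  have hdvd : f ∣ (X 1 - C y : MvPolynomial (Fin 2) ℂ) := by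
    refine dvd_subfield (E := tildeE) hf (fun c => tilde_mem.2 (alg c)) hG (tilde_trans hx) hxy ?_
    simp
  have h2 := tilde_degreeOf_le hdvd hG0 0
  have h3 : (X 1 - C y : MvPolynomial (Fin 2) ℂ).degreeOf 0 = 0 := by
    apply Nat.le_zero.1
    refine (degreeOf_sub_le 0 _ _).trans ?_
    rw [degreeOf_C, degreeOf_X]
    simp
  omega

/-- the coordinates of a point of a curve with algebraic coefficients are algebraically
dependent -/
theorem exists_int_rel {f : MvPolynomial (Fin 2) ℂ} (hf : Irreducible f)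
    (alg : ∀ b, IsAlgebraic ℚ (f.coeff b)) {x y : ℂ} (hx : Transcendental ℚ x)
    (h : aeval ![x, y] f = 0) : ∃ p : MvPolynomial (Fin 2) ℤ, p ≠ 0 ∧ aeval ![x, y] p = 0 := by
  have _hx := hx
  by_contra hno
  push Not at hno
  have hind : AlgebraicIndependent ℤ ![x, y] := by
    rw [algebraicIndependent_iff]
    intro p hp
    by_contra hp0
    exact hno p hp0 hp
  have h1 := tilde_alg_int
  have h2 : AlgebraicIndependent tildeE ![x, y] := hind.extendScalars tildeE
  obtain ⟨f₀, hf₀⟩ := exists_map_eq (E := tildeE) (g := f) (fun b => tilde_mem.2 (alg b))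
  have h3 : aeval ![x, y] f₀ = 0 := by
    rw [← h, ← hf₀, MvPolynomial.aeval_map_algebraMap]
  have h4 : f₀ = 0 := algebraicIndependent_iff.1 h2 f₀ h3
  apply hf.ne_zero
  rw [← hf₀, h4, map_zero]

/-- **The curve over `ℤ`.** -/
theorem exists_tilde {f : MvPolynomial (Fin 2) ℂ} (hf : Irreducible f)
    (alg : ∀ b, IsAlgebraic ℚ (f.coeff b)) (h0 : 0 < f.degreeOf 0) (h1 : 0 < f.degreeOf 1) :
    ∃ (g : MvPolynomial (Fin 2) ℤ) (x y : ℂ), Irreducible g ∧ 0 < g.degreeOf 0 ∧
      0 < g.degreeOf 1 ∧ Transcendental ℚ x ∧ Transcendental ℚ y ∧ aeval ![x, y] f = 0 ∧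
      aeval ![x, y] g = 0 ∧ f ∣ map (Int.castRingHom ℂ) g := by
  obtain ⟨x, y, hx, hy, hxy⟩ := exists_generic hf alg h0 h1
  obtain ⟨p, hp, hpxy⟩ := exists_int_rel hf alg hx hxy
  -- an irreducible factor which vanishes
  obtain ⟨g, hg, hgxy⟩ : ∃ g : MvPolynomial (Fin 2) ℤ, Irreducible g ∧ aeval ![x, y] g = 0 := by
    have h2 : aeval ![x, y] (UniqueFactorizationMonoid.factors p).prod = 0 := by
      obtain ⟨u, hu⟩ := UniqueFactorizationMonoid.factors_prod hp
      have h3 : aeval ![x, y] (UniqueFactorizationMonoid.factors p).prod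
          * aeval ![x, y] (u : MvPolynomial (Fin 2) ℤ) = 0 := by
        rw [← map_mul, hu, hpxy]
      rcases mul_eq_zero.1 h3 with h4 | h4
      · exact h4
      · exfalso
        have h5 : IsUnit (aeval ![x, y] (u : MvPolynomial (Fin 2) ℤ)) :=
          u.isUnit.map (aeval ![x, y])
        exact h5.ne_zero h4
    rw [map_multiset_prod, Multiset.prod_eq_zero_iff, Multiset.mem_map] at h2
    obtain ⟨g, hg, hg0⟩ := h2
    exact ⟨g, UniqueFactorizationMonoid.irreducible_of_factor g hg, hg0⟩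
  have hmap : aeval ![x, y] (map (Int.castRingHom ℂ) g) = 0 := by
    rw [← hgxy]
    have := MvPolynomial.aeval_map_algebraMap (R := ℤ) ℂ (![x, y] : Fin 2 → ℂ) g
    exact this
  have hG0 : map (Int.castRingHom ℂ) g ≠ 0 := by
    intro h
    apply hg.ne_zero
    apply MvPolynomial.map_injective (Int.castRingHom ℂ) (Int.cast_injective)
    rw [h, map_zero]
  have hdvd : f ∣ map (Int.castRingHom ℂ) g := by
    refine dvd_subfield (E := tildeE) hf (fun c => tilde_mem.2 (alg c)) (fun c => ?_)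
      (tilde_trans hx) hxy hmap
    rw [coeff_map]
    exact tildeE.intCast_mem _
  have hd : ∀ i : Fin 2, f.degreeOf i ≤ g.degreeOf i := by
    intro i
    refine (tilde_degreeOf_le hdvd hG0 i).trans ?_
    rw [degreeOf_eq_sup, degreeOf_eq_sup]
    exact Finset.sup_mono (support_map_subset _ _)
  exact ⟨g, x, y, hg, lt_of_lt_of_le h0 (hd 0), lt_of_lt_of_le h1 (hd 1), hx, hy, hxy, hgxy, hdvd⟩

end Pool.Agent.PX
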