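import Pool.Agent.Lib.MP_c95b3b_ag_PX.Defs

/-! MP_c95b3b_ag, project (P), block X: a set which is not contained in a line has two edges which
are not parallel. -/

set_option autoImplicit false

open MvPolynomial

namespace Pool.Agent.PX

/-- a non-zero vector is a positive multiple of a primitive one -/
theorem exists_coprime {w : ℤ × ℤ} (hw : w ≠ 0) :
    ∃ (u : ℤ × ℤ) (d : ℤ), 0 < d ∧ IsCoprime u.1 u.2 ∧ w.1 = d * u.1 ∧ w.2 = d * u.2 := by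
  have hg : 0 < Int.gcd w.1 w.2 := by
    rcases Nat.eq_zero_or_pos (Int.gcd w.1 w.2) with h | h
    · exfalso
      rw [Int.gcd_eq_zero_iff] at h
      exact hw (Prod.ext h.1 h.2)
    · exact h
  obtain ⟨a, b, hab, h1, h2⟩ := Int.exists_gcd_one hg
  refine ⟨(a, b), (Int.gcd w.1 w.2 : ℤ), by exact_mod_cast hg,
    Int.isCoprime_iff_gcd_eq_one.mpr hab, ?_, ?_⟩
  · rw [mul_comm]; exact h1
  · rw [mul_comm]; exact h2

/-- a rotating line: if the form `l` has a strict maximum on `S` at `p` then a combination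
`s m + r l` with `s > 0` attains its maximum at `p` and at a second point -/
private theorem Two_rotate {S : Finset (Fin 2 →₀ ℕ)} (m l : ℤ × ℤ) {p : Fin 2 →₀ ℕ}
    (hl : ∀ c ∈ S, c ≠ p → ky l c < ky l p) (h2 : ∃ c ∈ S, c ≠ p) :
    ∃ (s r : ℤ) (q : Fin 2 →₀ ℕ), 0 < s ∧ q ∈ S ∧ q ≠ p ∧
      s * ky m q + r * ky l q = s * ky m p + r * ky l p ∧
      ∀ c ∈ S, s * ky m c + r * ky l c ≤ s * ky m p + r * ky l p := by
  obtain ⟨c₀, hc₀, hc₀p⟩ := h2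
  obtain ⟨q, hq, hmax⟩ := Finset.exists_max_image (S.erase p)
    (fun c => ((ky m c - ky m p : ℤ) : ℚ) / ((ky l p - ky l c : ℤ) : ℚ))
    ⟨c₀, Finset.mem_erase.mpr ⟨hc₀p, hc₀⟩⟩
  rw [Finset.mem_erase] at hq
  have hs : 0 < ky l p - ky l q := by
    have := hl q hq.2 hq.1
    omega
  refine ⟨ky l p - ky l q, ky m q - ky m p, q, hs, hq.2, hq.1, by ring, ?_⟩
  intro c hc
  by_cases hcp : c = p
  · rw [hcp]
  · have hc' : 0 < ky l p - ky l c := by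
      have := hl c hc hcp
      omega
    have h := hmax c (Finset.mem_erase.mpr ⟨hcp, hc⟩)
    have h1 : (0 : ℚ) < ((ky l p - ky l c : ℤ) : ℚ) := by exact_mod_cast hc'
    have h2 : (0 : ℚ) < ((ky l p - ky l q : ℤ) : ℚ) := by exact_mod_cast hs
    rw [div_le_div_iff₀ h1 h2] at h
    have h3 : (ky m c - ky m p) * (ky l p - ky l q) ≤ (ky m q - ky m p) * (ky l p - ky l c) := by
      exact_mod_cast h
    nlinarith [h3]

/-- the edge in the direction of a non-zero vector, in a primitive direction -/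
private theorem Two_edge {S : Finset (Fin 2 →₀ ℕ)} {w u : ℤ × ℤ} {d : ℤ} (hd : 0 < d)
    (h1 : w.1 = d * u.1) (h2 : w.2 = d * u.2) (h : EdgeS S w) : EdgeS S u := by
  have hk : ∀ c : Fin 2 →₀ ℕ, ky w c = d * ky u c := by
    intro c
    unfold ky
    rw [h1, h2]; ring
  obtain ⟨a, ha, b, hb, hab, he, hm⟩ := h
  refine ⟨a, ha, b, hb, hab, ?_, ?_⟩
  · rw [hk, hk] at he
    exact mul_left_cancel₀ hd.ne' he
  · intro c hc
    have := hm c hc
    rw [hk, hk] at this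
    exact le_of_mul_le_mul_left this hd

theorem two_edges {S : Finset (Fin 2 →₀ ℕ)} (hS : Wide S) :
    ∃ u v : ℤ × ℤ, IsCoprime u.1 u.2 ∧ IsCoprime v.1 v.2 ∧ EdgeS S u ∧ EdgeS S v ∧
      u.1 * v.2 ≠ u.2 * v.1 := by
  obtain ⟨a₀, ha₀, b₀, hb₀, hab₀⟩ := hS (1, 0) (by decide)
  -- a bound for the second coordinate
  obtain ⟨M, hM⟩ : ∃ M : ℕ, ∀ c ∈ S, c 1 ≤ M :=
    ⟨S.sup (fun c => c 1), fun c hc => Finset.le_sup (f := fun c : Fin 2 →₀ ℕ => c 1) hc⟩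
  set l : ℤ × ℤ := ((M : ℤ) + 1, 1) with hl
  have hinj : ∀ a ∈ S, ∀ b ∈ S, ky l a = ky l b → a = b := by
    intro a ha b hb hab
    have h1 := hM a ha
    have h2 := hM b hb
    have h : ((M : ℤ) + 1) * (a 0 : ℤ) + (a 1 : ℤ) = ((M : ℤ) + 1) * (b 0 : ℤ) + (b 1 : ℤ) := by
      simpa [ky, hl] using hab
    have h1' : (a 1 : ℤ) ≤ M := by exact_mod_cast h1
    have h2' : (b 1 : ℤ) ≤ M := by exact_mod_cast h2
    have h3 : (0 : ℤ) ≤ (a 1 : ℤ) := by positivity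
    have h4 : (0 : ℤ) ≤ (b 1 : ℤ) := by positivity
    have h0 : (a 0 : ℤ) = (b 0 : ℤ) := by
      rcases lt_trichotomy (a 0 : ℤ) (b 0 : ℤ) with hlt | heq | hgt
      · exfalso
        nlinarith [mul_le_mul_of_nonneg_left (show (1 : ℤ) ≤ (b 0 : ℤ) - (a 0 : ℤ) by omega)
          (show (0 : ℤ) ≤ (M : ℤ) + 1 by omega)]
      · exact heq
      · exfalso
        nlinarith [mul_le_mul_of_nonneg_left (show (1 : ℤ) ≤ (a 0 : ℤ) - (b 0 : ℤ) by omega)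
          (show (0 : ℤ) ≤ (M : ℤ) + 1 by omega)]
    have h5 : (a 1 : ℤ) = (b 1 : ℤ) := by
      rw [h0] at h
      linarith
    ext i
    fin_cases i
    · exact_mod_cast h0
    · exact_mod_cast h5
  obtain ⟨p, hp, hpm⟩ := Finset.exists_max_image S (fun c => ky l c) ⟨a₀, ha₀⟩
  have hlt : ∀ c ∈ S, c ≠ p → ky l c < ky l p := by
    intro c hc hcp
    rcases lt_or_eq_of_le (hpm c hc) with h | h
    · exact h
    · exact absurd (hinj c hc p hp h) hcp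
  have h2 : ∃ c ∈ S, c ≠ p := by
    by_cases h : a₀ = p
    · refine ⟨b₀, hb₀, ?_⟩
      intro hb
      apply hab₀
      rw [h, hb]
    · exact ⟨a₀, ha₀, h⟩
  obtain ⟨s₁, r₁, q₁, hs₁, hq₁, hq₁p, he₁, hm₁⟩ := Two_rotate (1, 0) l hlt h2
  obtain ⟨s₂, r₂, q₂, hs₂, hq₂, hq₂p, he₂, hm₂⟩ := Two_rotate (-1, 0) l hlt h2
  set w₁ : ℤ × ℤ := (s₁ + r₁ * ((M : ℤ) + 1), r₁) with hw₁
  set w₂ : ℤ × ℤ := (-s₂ + r₂ * ((M : ℤ) + 1), r₂) with hw₂
  have k₁ : ∀ c : Fin 2 →₀ ℕ, s₁ * ky (1, 0) c + r₁ * ky l c = ky w₁ c := by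
    intro c
    simp only [ky, hl, hw₁]
    ring
  have k₂ : ∀ c : Fin 2 →₀ ℕ, s₂ * ky (-1, 0) c + r₂ * ky l c = ky w₂ c := by
    intro c
    simp only [ky, hl, hw₂]
    ring
  rw [k₁, k₁] at he₁
  rw [k₂, k₂] at he₂
  have hm₁' : ∀ c ∈ S, ky w₁ c ≤ ky w₁ p := by
    intro c hc
    have := hm₁ c hc
    rwa [k₁, k₁] at this
  have hm₂' : ∀ c ∈ S, ky w₂ c ≤ ky w₂ p := by
    intro c hc
    have := hm₂ c hc
    rwa [k₂, k₂] at this
  have hw₁0 : w₁ ≠ 0 := by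
    intro h
    have hb : r₁ = 0 := congrArg Prod.snd h
    have ha : s₁ + r₁ * ((M : ℤ) + 1) = 0 := congrArg Prod.fst h
    rw [hb] at ha
    omega
  have hw₂0 : w₂ ≠ 0 := by
    intro h
    have hb : r₂ = 0 := congrArg Prod.snd h
    have ha : -s₂ + r₂ * ((M : ℤ) + 1) = 0 := congrArg Prod.fst h
    rw [hb] at ha
    omega
  have hdet : w₁.1 * w₂.2 ≠ w₁.2 * w₂.1 := by
    intro h
    have hz : s₁ * r₂ = - (r₁ * s₂) := by
      simp only [hw₁, hw₂] at h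
      nlinarith [h]
    have hk : ∀ c : Fin 2 →₀ ℕ, s₁ * ky w₂ c = - s₂ * ky w₁ c := by
      intro c
      simp only [ky, hw₁, hw₂]
      linear_combination (((M : ℤ) + 1) * (c 0 : ℤ) + (c 1 : ℤ)) * hz
    obtain ⟨a, ha, b, hb, hab⟩ := hS w₁ hw₁0
    apply hab
    have hc : ∀ c ∈ S, ky w₁ c = ky w₁ p := by
      intro c hc
      apply le_antisymm (hm₁' c hc)
      have h1 := mul_le_mul_of_nonneg_left (hm₂' c hc) hs₁.le
      rw [hk, hk] at h1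
      by_contra hlt
      push Not at hlt
      nlinarith [mul_lt_mul_of_pos_left hlt hs₂]
    rw [hc a ha, hc b hb]
  have E₁ : EdgeS S w₁ := ⟨p, hp, q₁, hq₁, hq₁p.symm, he₁.symm, hm₁'⟩
  have E₂ : EdgeS S w₂ := ⟨p, hp, q₂, hq₂, hq₂p.symm, he₂.symm, hm₂'⟩
  obtain ⟨u, d, hd, hu, hu1, hu2⟩ := exists_coprime hw₁0
  obtain ⟨v, e, he, hv, hv1, hv2⟩ := exists_coprime hw₂0
  refine ⟨u, v, hu, hv, Two_edge hd hu1 hu2 E₁, Two_edge he hv1 hv2 E₂, ?_⟩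
  intro h
  apply hdet
  rw [hu1, hu2, hv1, hv2]
  linear_combination (d * e) * h

end Pool.Agent.PX
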