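import Pool.Agent.Lib.MP_c95b3b_ag_PX.Aut
import Pool.Agent.Lib.MP_c95b3b_ag_PX.Tilde
import Pool.Agent.Lib.MP_c95b3b_ag_PX.Two
import Pool.Agent.Lib.MP_c95b3b_ag_PX.Log
import Pool.Agent.Lib.MP_c95b3b_ag_PX.Rays
import Pool.Agent.Lib.MP_c95b3b_ag_PX.Ind

/-! MP_c95b3b_ag, project (P), block X: existence of the curves over `ℤ`. -/

set_option autoImplicit false

open MvPolynomial

namespace Pool.Agent.PX

theorem isEdge_iff (f : MvPolynomial (Fin 2) ℤ) (u : ℤ × ℤ) :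
    PC.IsEdge f u ↔ EdgeS f.support u := Iff.rfl

/-- the data of the curve over `ℤ` -/
structure Data (f : MvPolynomial (Fin 2) ℂ) (g : MvPolynomial (Fin 2) ℤ) : Prop where
  irr : Irreducible g
  degX : 0 < g.degreeOf 0
  degY : 0 < g.degreeOf 1
  dvd : f ∣ map (Int.castRingHom ℂ) g
  two : ∃ u v : ℤ × ℤ, IsCoprime u.1 u.2 ∧ IsCoprime v.1 v.2 ∧ EdgeS f.support u ∧
    EdgeS f.support v ∧ u.1 * v.2 ≠ u.2 * v.1
  edge : ∀ u : ℤ × ℤ, IsCoprime u.1 u.2 → EdgeS f.support u → EdgeS g.support u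
  ind : ∀ (E : Subfield ℂ) (x y : ℂ), IsAlgClosed E → Transcendental E x →
    aeval ![x, y] g = 0 → ∀ u : ℤ × ℤ, IsCoprime u.1 u.2 → EdgeS f.support u →
    ∃ z₁ z₂ : ℂ, z₁ ≠ 0 ∧ z₂ ≠ 0 ∧ IsAlgebraic ℚ z₁ ∧
      IsAlgebraic ℚ z₂ ∧ ∀ (s : Finset (ℤ × ℤ)) (c : ℤ × ℤ → ℂ) (κ : ℤ), (∀ a ∈ s, c a ∈ E) →
        (∀ a ∈ s, c a ≠ 0 → PC.pr u a ≤ κ) → ∑ a ∈ s, c a * (x ^ a.1 * y ^ a.2) = 0 →
        ∑ a ∈ s with PC.pr u a = κ, c a * (z₁ ^ a.1 * z₂ ^ a.2) = 0

theorem coprime_ne {u : ℤ × ℤ} (h : IsCoprime u.1 u.2) : u ≠ 0 := by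
  rintro rfl
  exact not_isCoprime_zero_zero h

theorem support_map_ringEquiv (τ : ℂ ≃+* ℂ) (f : MvPolynomial (Fin 2) ℂ) :
    (map (τ : ℂ →+* ℂ) f).support = f.support :=
  support_map_of_injective f (RingEquiv.injective τ)

theorem transcendental_int_of {E : Subfield ℂ} {x : ℂ} (h : Transcendental E x) :
    Transcendental ℤ x := by
  intro h1
  apply h
  obtain ⟨p, hp, hx⟩ := h1
  refine ⟨p.map (Int.castRingHom E), ?_, ?_⟩
  · rwa [Polynomial.map_ne_zero_iff (RingHom.injective_int _)]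
  · rw [← hx, Polynomial.aeval_def, Polynomial.aeval_def, Polynomial.eval₂_map]
    congr 1

theorem transc_aux {x : ℂ} (h : IsAlgebraic ℤ x) : IsAlgebraic ℚ x := by
  obtain ⟨p, hp, hx⟩ := h
  refine ⟨p.map (Int.castRingHom ℚ), ?_, ?_⟩
  · rwa [Polynomial.map_ne_zero_iff (RingHom.injective_int _)]
  · rw [← hx, Polynomial.aeval_def, Polynomial.aeval_def, Polynomial.eval₂_map]
    congr 1

theorem exists_data {f : MvPolynomial (Fin 2) ℂ} (hf : Irreducible f)
    (alg : ∀ b, IsAlgebraic ℚ (f.coeff b)) (hw : Wide f.support) : ∃ g, Data f g := by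
  obtain ⟨h0, h1⟩ := degreeOf_pos hw
  obtain ⟨g, x₀, y₀, hg, hg0, hg1, hx₀, hy₀, hfx, hgx, hdvd⟩ := exists_tilde hf alg h0 h1
  refine ⟨g, hg, hg0, hg1, hdvd, two_edges hw, ?_, ?_⟩
  · intro u hu he
    obtain ⟨q, hq⟩ := hdvd
    have hg' : map (Int.castRingHom ℂ) g ≠ 0 := by
      intro h
      have h2 := map_injective (σ := Fin 2) (Int.castRingHom ℂ) (RingHom.injective_int _)
      exact hg.ne_zero (h2 (by rw [h, map_zero]))
    have h3 : EdgeS (map (Int.castRingHom ℂ) g).support u := by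
      rw [hq]
      exact edge_mul (by rw [← hq]; exact hg') he (coprime_ne hu)
    rwa [support_map_of_injective g (RingHom.injective_int _)] at h3
  · intro E x y hE hx hxy u hu he
    have hx₀' : Transcendental ℤ x₀ := fun h => hx₀ (transc_aux h)
    obtain ⟨τ, hτx, hτy⟩ := exists_aut hg hx₀' (transcendental_int_of hx) hgx hxy
    have hy0 : y₀ ≠ 0 := fun h => hy₀ (h ▸ isAlgebraic_zero)
    have hirr : Irreducible (map (τ : ℂ →+* ℂ) f) := by
      have h := (MulEquiv.irreducible_iff (mapEquiv (Fin 2) τ)).2 hf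
      exact h
    refine ind_of hirr ?_ E x y hE hx ?_ ?_ hu ?_
    · intro b
      rw [coeff_map]
      obtain ⟨p, hp, hz⟩ := alg b
      refine ⟨p, hp, ?_⟩
      have h : (τ : ℂ →+* ℂ) (Polynomial.aeval (coeff b f) p) =
          Polynomial.aeval ((τ : ℂ →+* ℂ) (coeff b f)) p := by
        rw [Polynomial.aeval_def, Polynomial.aeval_def, Polynomial.hom_eval₂]
        congr 1
        exact Subsingleton.elim _ _
      rw [← h, hz, map_zero]
    · rw [← hτy]
      exact fun h => hy0 (by simpa using h)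
    · rw [← hτx, ← hτy]
      have h := map_aeval (τ : ℂ →+* ℂ) f x₀ y₀
      rw [hfx, map_zero] at h
      exact h
    · rw [support_map_ringEquiv]
      exact he

theorem exists_crv (k : ℕ) (fc : Fin k → Polynomial (Polynomial ℂ))
    (irr : ∀ i, Irreducible (fc i)) (alg : ∀ i a b, IsAlgebraic ℚ (((fc i).coeff a).coeff b))
    (fin : ∀ i, PT.LogFin (fc i))
    (nd : ∀ i, ∃ x y : ℂ, x ≠ 0 ∧ y ≠ 0 ∧ (fc i).evalEval x y = 0) :
    ∃ (m : ℕ) (C : Fin k → PC.Crv m), ∀ i x y, (fc i).evalEval x y = 0 →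
      aeval ![x, y] (C i).f = 0 := by
  classical
  let F : Fin k → MvPolynomial (Fin 2) ℂ := fun i => (e2 ℂ).symm (fc i)
  have hF : ∀ i, e2 ℂ (F i) = fc i := fun i => (e2 ℂ).apply_symm_apply _
  have hirr : ∀ i, Irreducible (F i) := fun i =>
    (MulEquiv.irreducible_iff (e2 ℂ).symm.toMulEquiv).2 (irr i)
  have halg : ∀ i b, IsAlgebraic ℚ ((F i).coeff b) := by
    intro i b
    have h := e2_coeff (F i) (b 0) (b 1)
    rw [mk_eq, hF] at h
    rw [← h]
    exact alg i _ _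
  have hw : ∀ i, Wide (F i).support := fun i => wide_of_logFin (fin i) (nd i)
  choose g hg using fun i => exists_data (hirr i) (halg i) (hw i)
  let R : Fin k → Set (ℤ × ℤ) := fun i =>
    {u : ℤ × ℤ | IsCoprime u.1 u.2 ∧ EdgeS (g i).support u}
  have hR : ∀ i, (R i).Finite := fun i => finite_edges _
  have hne : ∀ i, (R i).Nonempty := by
    intro i
    obtain ⟨u, v, hu, hv, heu, hev, huv⟩ := (hg i).two
    exact ⟨u, hu, (hg i).edge u hu heu⟩
  let m := ∑ i, (R i).ncard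
  have hm : ∀ i, (R i).ncard ≤ m := fun i =>
    Finset.single_le_sum (f := fun i => (R i).ncard) (fun _ _ => Nat.zero_le _) (Finset.mem_univ i)
  choose r hr1 hr2 using fun i => exists_list (hR i) (hne i) (hm i)
  refine ⟨m, fun i => {
    f := g i
    irr := (hg i).irr
    degX := (hg i).degX
    degY := (hg i).degY
    ray := r i
    cop := fun j => (hr1 i j).1
    edge := fun j => (hr1 i j).2
    all := fun u hu he => hr2 i u ⟨hu, he⟩
    good := Finset.univ.filter fun j => EdgeS (F i).support (r i j)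
    two := ?_
    ind := ?_ }, ?_⟩
  · obtain ⟨u, v, hu, hv, heu, hev, huv⟩ := (hg i).two
    obtain ⟨j, hj⟩ := hr2 i u ⟨hu, (hg i).edge u hu heu⟩
    obtain ⟨j', hj'⟩ := hr2 i v ⟨hv, (hg i).edge v hv hev⟩
    refine ⟨j, ?_, j', ?_, ?_⟩
    · rw [Finset.mem_filter, hj]
      exact ⟨Finset.mem_univ _, heu⟩
    · rw [Finset.mem_filter, hj']
      exact ⟨Finset.mem_univ _, hev⟩
    · rw [hj, hj']
      exact huv
  · intro E x y hE hx hxy j hj
    exact (hg i).ind E x y hE hx hxy _ (hr1 i j).1 (Finset.mem_filter.1 hj).2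
  · intro i x y hxy
    obtain ⟨q, hq⟩ := (hg i).dvd
    have h1 : aeval ![x, y] (F i) = 0 := by
      rw [← e2_evalEval, hF]
      exact hxy
    have h2 : aeval ![x, y] (map (Int.castRingHom ℂ) (g i)) = (0 : ℂ) := by
      rw [hq, map_mul, h1, zero_mul]
    have h3 : aeval ![x, y] (g i) = (aeval ![x, y] (map (Int.castRingHom ℂ) (g i)) : ℂ) := by
      simp only [aeval_def, eval₂_map]
      congr 1
    exact h3.trans h2

end Pool.Agent.PX
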