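import Pool.Agent.Lib.MP_c95b3b_ag_PX.Gauss

/-! MP_c95b3b_ag, project (P), block X: the automorphism group of the complex numbers is
transitive on the generic points of an irreducible curve over `ℤ`. -/

set_option autoImplicit false

open MvPolynomial

namespace Pool.Agent.PX

/-- two algebraically closed fields of the cardinality of `ℂ` over a countable domain -/
theorem exists_ringEquiv {R K L : Type} [CommRing R] [IsDomain R] [Countable R] [Field K] [Field L]
    [Algebra R K] [Algebra R L] [FaithfulSMul R K] [FaithfulSMul R L] [IsAlgClosed K]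
    [IsAlgClosed L] (hK : Cardinal.aleph0 < Cardinal.mk K)
    (hKL : Cardinal.mk K = Cardinal.mk L) :
    ∃ τ : K ≃+* L, ∀ r : R, τ (algebraMap R K r) = algebraMap R L r := by
  obtain ⟨s, hs⟩ := exists_isTranscendenceBasis R K
  obtain ⟨t, ht⟩ := exists_isTranscendenceBasis R L
  have hR : Cardinal.mk R ≤ Cardinal.aleph0 := Cardinal.mk_le_aleph0
  have hL : Cardinal.aleph0 < Cardinal.mk L := hKL ▸ hK
  have e1 : Cardinal.mk K = Cardinal.mk s :=
    IsAlgClosed.cardinal_eq_cardinal_transcendence_basis_of_aleph0_lt' _ hs hR hK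
  have e2 : Cardinal.mk L = Cardinal.mk t :=
    IsAlgClosed.cardinal_eq_cardinal_transcendence_basis_of_aleph0_lt' _ ht hR hL
  obtain ⟨e⟩ : Nonempty (s ≃ t) := Cardinal.eq.1 (by rw [← e1, ← e2, hKL])
  let i1 := IsAlgClosed.isAlgClosure_of_transcendence_basis _ hs
  let i2 := IsAlgClosed.isAlgClosure_of_transcendence_basis _ ht
  let ε : Algebra.adjoin R (Set.range (Subtype.val : s → K)) ≃ₐ[R]
      Algebra.adjoin R (Set.range (Subtype.val : t → L)) :=
    hs.1.aevalEquiv.symm.trans ((MvPolynomial.renameEquiv R e).trans ht.1.aevalEquiv)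
  refine ⟨IsAlgClosure.equivOfEquiv K L ε.toRingEquiv, fun r => ?_⟩
  have h1 := IsAlgClosure.equivOfEquiv_algebraMap K L ε.toRingEquiv
    (algebraMap R (Algebra.adjoin R (Set.range (Subtype.val : s → K))) r)
  have h2 : ε.toRingEquiv (algebraMap R (Algebra.adjoin R (Set.range (Subtype.val : s → K))) r) =
      algebraMap R (Algebra.adjoin R (Set.range (Subtype.val : t → L))) r := ε.commutes r
  rw [h2, ← IsScalarTower.algebraMap_apply, ← IsScalarTower.algebraMap_apply] at h1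
  exact h1

theorem exists_aut {f : MvPolynomial (Fin 2) ℤ} (hf : Irreducible f) {x y x' y' : ℂ}
    (hx : Transcendental ℤ x) (hx' : Transcendental ℤ x') (h : aeval ![x, y] f = 0)
    (h' : aeval ![x', y'] f = 0) : ∃ τ : ℂ ≃+* ℂ, τ x = x' ∧ τ y = y' := by
  have hp : (Ideal.span {f}).IsPrime := (Ideal.span_singleton_prime hf.ne_zero).2 hf.prime
  have := hp
  have key : ∀ {a b : ℂ}, Transcendental ℤ a → aeval ![a, b] f = 0 →
      ∃ φ : (MvPolynomial (Fin 2) ℤ ⧸ Ideal.span {f}) →+* ℂ, Function.Injective φ ∧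
        φ (Ideal.Quotient.mk _ (X 0)) = a ∧ φ (Ideal.Quotient.mk _ (X 1)) = b := by
    intro a b ha hab
    have hle : ∀ g ∈ Ideal.span {f}, (aeval ![a, b] : MvPolynomial (Fin 2) ℤ →ₐ[ℤ] ℂ).toRingHom g
        = 0 := by
      intro g hg
      obtain ⟨c, rfl⟩ := Ideal.mem_span_singleton.1 hg
      simp [hab]
    refine ⟨Ideal.Quotient.lift _ (aeval ![a, b] : MvPolynomial (Fin 2) ℤ →ₐ[ℤ] ℂ).toRingHom hle,
      ?_, ?_, ?_⟩
    · rw [injective_iff_map_eq_zero]
      intro q hq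
      obtain ⟨g, rfl⟩ := Ideal.Quotient.mk_surjective q
      rw [Ideal.Quotient.lift_mk] at hq
      rw [Ideal.Quotient.eq_zero_iff_mem, Ideal.mem_span_singleton]
      exact dvd_of_zero hf ha hab hq
    · rw [Ideal.Quotient.lift_mk]
      simp
    · rw [Ideal.Quotient.lift_mk]
      simp
  obtain ⟨φ, hφ, hφ0, hφ1⟩ := key hx h
  obtain ⟨ψ, hψ, hψ0, hψ1⟩ := key hx' h'
  have hcount0 : Countable (MvPolynomial (Fin 2) ℤ) := by
    rw [← Cardinal.mk_le_aleph0_iff]
    refine (MvPolynomial.cardinalMk_le_max (σ := Fin 2) (R := ℤ)).trans ?_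
    simp
  have hcount : Countable (MvPolynomial (Fin 2) ℤ ⧸ Ideal.span {f}) :=
    (Ideal.Quotient.mk_surjective (I := Ideal.span {f})).countable
  have hdom : IsDomain (MvPolynomial (Fin 2) ℤ ⧸ Ideal.span {f}) :=
    Ideal.Quotient.isDomain _
  have hC : Cardinal.aleph0 < Cardinal.mk ℂ := by
    rw [Cardinal.mk_complex]
    exact Cardinal.aleph0_lt_continuum
  obtain ⟨τ, hτ⟩ := @exists_ringEquiv (MvPolynomial (Fin 2) ℤ ⧸ Ideal.span {f}) ℂ ℂ _ hdom
    hcount _ _ φ.toAlgebra ψ.toAlgebra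
    (@FaithfulSMul.mk _ _ φ.toAlgebra.toSMul (fun {m₁ m₂} hm => hφ (by
      have := hm 1
      change φ m₁ * 1 = φ m₂ * 1 at this
      simpa using this)))
    (@FaithfulSMul.mk _ _ ψ.toAlgebra.toSMul (fun {m₁ m₂} hm => hψ (by
      have := hm 1
      change ψ m₁ * 1 = ψ m₂ * 1 at this
      simpa using this))) _ _ hC rfl
  have hτ' : ∀ r, τ (φ r) = ψ r := hτ
  refine ⟨τ, ?_, ?_⟩
  · rw [← hφ0, hτ', hψ0]
  · rw [← hφ1, hτ', hψ1]

end Pool.Agent.PX
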