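import Mathlib

/-! MP_c95b3b_ag, project (P), block X: construction of the curves over `ℤ`. Definitions. -/

set_option autoImplicit false

open MvPolynomial

namespace Pool.Agent.PX

/-- value of the linear form `u` on the exponent `b` -/
def ky (u : ℤ × ℤ) (b : Fin 2 →₀ ℕ) : ℤ := u.1 * (b 0 : ℤ) + u.2 * (b 1 : ℤ)

/-- the maximum of the linear form `u` on `S` is attained at least twice -/
def EdgeS (S : Finset (Fin 2 →₀ ℕ)) (u : ℤ × ℤ) : Prop :=
  ∃ a ∈ S, ∃ b ∈ S, a ≠ b ∧ ky u a = ky u b ∧ ∀ c ∈ S, ky u c ≤ ky u a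

/-- the set is not contained in a line -/
def Wide (S : Finset (Fin 2 →₀ ℕ)) : Prop :=
  ∀ w : ℤ × ℤ, w ≠ 0 → ∃ a ∈ S, ∃ b ∈ S, ky w a ≠ ky w b

/-- the exponent `(i, j)` -/
noncomputable def mk (i j : ℕ) : Fin 2 →₀ ℕ := Finsupp.single 0 i + Finsupp.single 1 j

/-- the top part in the direction `u` vanishes at the point `(z₁, z₂)` -/
def TopZero (f : MvPolynomial (Fin 2) ℂ) (u : ℤ × ℤ) (z₁ z₂ : ℂ) : Prop :=
  ∀ κ : ℤ, (∀ c ∈ f.support, ky u c ≤ κ) →
    ∑ c ∈ f.support with ky u c = κ, f.coeff c * (z₁ ^ c 0 * z₂ ^ c 1) = 0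

/-- `a` is the largest element of `S` with respect to `u` and then `v` -/
def TopAt (S : Finset (Fin 2 →₀ ℕ)) (u v : ℤ × ℤ) (a : Fin 2 →₀ ℕ) : Prop :=
  a ∈ S ∧ ∀ c ∈ S, ky u c < ky u a ∨ (ky u c = ky u a ∧ ky v c ≤ ky v a)

/-- polynomials in two variables as polynomials in the second variable with coefficients in the
ring of polynomials in the first variable -/
noncomputable def fwd (R : Type) [CommRing R] :
    MvPolynomial (Fin 2) R →ₐ[R] Polynomial (Polynomial R) :=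
  aeval ![Polynomial.C Polynomial.X, Polynomial.X]

/-- the inverse -/
noncomputable def bwd (R : Type) [CommRing R] :
    Polynomial (Polynomial R) →ₐ[R] MvPolynomial (Fin 2) R :=
  Polynomial.eval₂AlgHom (Polynomial.aeval (X 0)) (X 1) (fun _ => Commute.all _ _)

theorem fwd_bwd (R : Type) [CommRing R] : (fwd R).comp (bwd R) = AlgHom.id R _ := by
  ext
  all_goals simp [fwd, bwd]

theorem bwd_fwd (R : Type) [CommRing R] : (bwd R).comp (fwd R) = AlgHom.id R _ := by
  ext i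
  fin_cases i
  all_goals simp [fwd, bwd]

/-- the isomorphism -/
noncomputable def e2 (R : Type) [CommRing R] :
    MvPolynomial (Fin 2) R ≃ₐ[R] Polynomial (Polynomial R) :=
  AlgEquiv.ofAlgHom (fwd R) (bwd R) (fwd_bwd R) (bwd_fwd R)

end Pool.Agent.PX
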