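import Pool.Agent.Lib.MP_c95b3b_ag_PX.Gauss

/-! MP_c95b3b_ag, project (P), block X: irreducible polynomials over `ℂ` with coefficients in a
subfield. -/

set_option autoImplicit false

open MvPolynomial

namespace Pool.Agent.PX

/-- a polynomial whose coefficients lie in a subfield -/
theorem exists_map_eq {E : Subfield ℂ} {g : MvPolynomial (Fin 2) ℂ} (h : ∀ b, g.coeff b ∈ E) :
    ∃ g₀ : MvPolynomial (Fin 2) E, map (algebraMap E ℂ) g₀ = g := by
  refine ⟨∑ b ∈ g.support, monomial b (⟨g.coeff b, h b⟩ : E), ?_⟩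
  rw [map_sum]
  conv_rhs => rw [← support_sum_monomial_coeff g]
  refine Finset.sum_congr rfl fun b _ => ?_
  rw [map_monomial]
  rfl

/-- irreducibility descends to the subfield -/
theorem irreducible_of_map {E : Subfield ℂ} {g₀ : MvPolynomial (Fin 2) E}
    (h : Irreducible (map (algebraMap E ℂ) g₀)) : Irreducible g₀ := by
  have hinj : Function.Injective (algebraMap E ℂ) := (algebraMap E ℂ).injective
  have key : ∀ a : MvPolynomial (Fin 2) E, IsUnit (map (algebraMap E ℂ) a) → IsUnit a := by
    intro a ha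
    obtain ⟨r, hr, har⟩ := isUnit_iff_eq_C_of_isReduced.mp ha
    have h1 : a = C (a.coeff 0) := by
      apply map_injective _ hinj
      rw [map_C, har]
      have h2 : algebraMap E ℂ (a.coeff 0) = r := by
        rw [← coeff_map, har, coeff_C, if_pos rfl]
      rw [h2]
    have h3 : a.coeff 0 ≠ 0 := by
      intro h0
      rw [h0, map_zero] at h1
      rw [h1, map_zero] at ha
      exact not_isUnit_zero ha
    rw [h1]
    exact (isUnit_iff_ne_zero.mpr h3).map C
  refine ⟨fun hu => h.1 (hu.map (map (algebraMap E ℂ))), fun a b hab => ?_⟩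
  rcases h.2 (a := map (algebraMap E ℂ) a) (b := map (algebraMap E ℂ) b)
    (by rw [← map_mul, hab]) with h4 | h4
  · exact Or.inl (key a h4)
  · exact Or.inr (key b h4)

/-- an irreducible polynomial `g` over `ℂ` with coefficients in `E` divides every polynomial with
coefficients in `E` which vanishes at a zero `(x, y)` of `g` with `x` transcendental over `E` -/
theorem dvd_subfield {E : Subfield ℂ} {g G : MvPolynomial (Fin 2) ℂ} (hg : Irreducible g)
    (h : ∀ b, g.coeff b ∈ E) (hG : ∀ b, G.coeff b ∈ E) {x y : ℂ} (hx : Transcendental E x)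
    (h1 : aeval ![x, y] g = 0) (h2 : aeval ![x, y] G = 0) : g ∣ G := by
  obtain ⟨g₀, rfl⟩ := exists_map_eq h
  obtain ⟨G₀, rfl⟩ := exists_map_eq hG
  rw [aeval_map_algebraMap] at h1 h2
  exact map_dvd (map (algebraMap E ℂ)) (dvd_of_zero (irreducible_of_map hg) hx h1 h2)

/-- an algebraically closed subfield contains the algebraic numbers -/
theorem mem_of_isAlgebraic {E : Subfield ℂ} (hE : IsAlgClosed E) {z : ℂ} (hz : IsAlgebraic ℚ z) :
    z ∈ E := by
  have h1 : IsAlgebraic E z := hz.tower_top E
  have h2 := IsAlgClosed.degree_eq_one_of_irreducible E (minpoly.irreducible h1.isIntegral)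
  obtain ⟨w, hw⟩ := minpoly.mem_range_of_degree_eq_one E z h2
  rw [← hw]
  exact w.2

end Pool.Agent.PX
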