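import Pool.Agent.Lib.MP_c95b3b_ag_PX.Iso

/-! MP_c95b3b_ag, project (P), block X: an irreducible polynomial divides the polynomials which
vanish at its generic points. -/

set_option autoImplicit false

open MvPolynomial

namespace Pool.Agent.PX

/-- Gauss: `f` is associated to the minimal polynomial of `y` over the fraction field of `R` -/
theorem gauss_dvd {R L : Type} [CommRing R] [IsDomain R] [UniqueFactorizationMonoid R] [Field L]
    (φ : R →+* L) (hφ : Function.Injective φ) {f g : Polynomial R} (hf : Irreducible f) {y : L}
    (h1 : f.eval₂ φ y = 0) (h2 : g.eval₂ φ y = 0) : f ∣ g := by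
  classical
  by_cases hg : g = 0
  · subst hg; exact dvd_zero f
  let _ : StrongNormalizationMonoid R := UniqueFactorizationMonoid.strongNormalizationMonoid
  let _ : NormalizedGCDMonoid R := UniqueFactorizationMonoid.toNormalizedGCDMonoid R
  have hdeg : f.natDegree ≠ 0 := by
    intro h0
    obtain ⟨r, hr⟩ := Polynomial.natDegree_eq_zero.mp h0
    rw [← hr, Polynomial.eval₂_C] at h1
    have : r = 0 := hφ (by rw [h1, map_zero])
    apply hf.ne_zero
    rw [← hr, this, Polynomial.C_0]
  have hprim : f.IsPrimitive := hf.isPrimitive hdeg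
  let K := FractionRing R
  let ψ : K →+* L := IsFractionRing.lift hφ
  let _ : Algebra K L := ψ.toAlgebra
  have hψ : ψ.comp (algebraMap R K) = φ := by
    ext r
    simp [ψ]
  have hirr : Irreducible (f.map (algebraMap R K)) :=
    (Polynomial.IsPrimitive.irreducible_iff_irreducible_map_fraction_map (K := K) hprim).mp hf
  have e1 : Polynomial.aeval y (f.map (algebraMap R K)) = 0 := by
    rw [Polynomial.aeval_def, Polynomial.eval₂_map]
    change Polynomial.eval₂ (ψ.comp (algebraMap R K)) y f = 0
    rw [hψ, h1]
  have e2 : Polynomial.aeval y (g.map (algebraMap R K)) = 0 := by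
    rw [Polynomial.aeval_def, Polynomial.eval₂_map]
    change Polynomial.eval₂ (ψ.comp (algebraMap R K)) y g = 0
    rw [hψ, h2]
  have hm1 : minpoly K y ∣ f.map (algebraMap R K) := minpoly.dvd K y e1
  have hm2 : minpoly K y ∣ g.map (algebraMap R K) := minpoly.dvd K y e2
  have hint : IsIntegral K y := by
    have : IsAlgebraic K y := ⟨f.map (algebraMap R K), hirr.ne_zero, e1⟩
    exact this.isIntegral
  have hass : Associated (minpoly K y) (f.map (algebraMap R K)) :=
    (minpoly.irreducible hint).associated_of_dvd hirr hm1
  have hfg : f.map (algebraMap R K) ∣ g.map (algebraMap R K) := hass.dvd_iff_dvd_left.mp hm2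
  have hc : g.content ≠ 0 := fun h => hg (Polynomial.content_eq_zero_iff.mp h)
  have hcK : algebraMap R K g.content ≠ 0 := by
    intro h
    exact hc ((IsFractionRing.injective R K) (by rw [h, map_zero]))
  have hgm : g.map (algebraMap R K)
      = Polynomial.C (algebraMap R K g.content) * g.primPart.map (algebraMap R K) := by
    conv_lhs => rw [g.eq_C_content_mul_primPart]
    rw [Polynomial.map_mul, Polynomial.map_C]
  have hu : IsUnit (Polynomial.C (algebraMap R K g.content)) :=
    Polynomial.isUnit_C.mpr (isUnit_iff_ne_zero.mpr hcK)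
  have hfp : f.map (algebraMap R K) ∣ g.primPart.map (algebraMap R K) := by
    rw [hgm] at hfg
    exact (hu.dvd_mul_left).mp hfg
  have := Polynomial.IsPrimitive.dvd_of_fraction_map_dvd_fraction_map hprim hfp
  exact this.trans g.primPart_dvd

/-- the same for polynomials in two variables -/
theorem dvd_of_zero {R L : Type} [CommRing R] [IsDomain R] [UniqueFactorizationMonoid R] [Field L]
    [Algebra R L] {f g : MvPolynomial (Fin 2) R} (hf : Irreducible f) {x y : L}
    (hx : Transcendental R x) (h1 : aeval ![x, y] f = 0) (h2 : aeval ![x, y] g = 0) : f ∣ g := by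
  have hinj : Function.Injective (Polynomial.aeval x : Polynomial R →ₐ[R] L).toRingHom :=
    transcendental_iff_injective.mp hx
  have hfe : Irreducible (e2 R f) := (MulEquiv.irreducible_iff (e2 R).toMulEquiv).mpr hf
  rw [← e2_eval₂] at h1 h2
  have h := gauss_dvd _ hinj hfe h1 h2
  have h' := map_dvd (e2 R).symm h
  simpa using h'

end Pool.Agent.PX
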