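import Pool.Agent.Lib.MP_c95b3b_ag_PX.Defs

/-! MP_c95b3b_ag, project (P), block X: two ways to write polynomials in two variables. -/

set_option autoImplicit false

open MvPolynomial

namespace Pool.Agent.PX

theorem mk_apply (i j : ℕ) : mk i j 0 = i ∧ mk i j 1 = j := by
  constructor
  · simp [mk]
  · simp [mk]

theorem mk_eq (b : Fin 2 →₀ ℕ) : mk (b 0) (b 1) = b := by
  ext i
  fin_cases i
  · exact (mk_apply (b 0) (b 1)).1
  · exact (mk_apply (b 0) (b 1)).2

private theorem iso_e2_apply {R : Type} [CommRing R] (p : MvPolynomial (Fin 2) R) :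
    e2 R p = (aeval ![Polynomial.C Polynomial.X, Polynomial.X] :
      MvPolynomial (Fin 2) R →ₐ[R] Polynomial (Polynomial R)) p := rfl

private theorem iso_e2_X0 (R : Type) [CommRing R] :
    e2 R (X 0) = Polynomial.C Polynomial.X := by
  rw [iso_e2_apply, aeval_X]
  rfl

private theorem iso_e2_X1 (R : Type) [CommRing R] : e2 R (X 1) = Polynomial.X := by
  rw [iso_e2_apply, aeval_X]
  rfl

private theorem iso_e2_C {R : Type} [CommRing R] (r : R) :
    e2 R (C r) = Polynomial.C (Polynomial.C r) := by
  rw [iso_e2_apply, aeval_C]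
  rfl

private theorem iso_monomial {R : Type} [CommRing R] (b : Fin 2 →₀ ℕ) (r : R) :
    monomial b r = C r * (X 0 ^ b 0 * X 1 ^ b 1) := by
  rw [monomial_eq, Finsupp.prod_fintype _ _ (fun i => pow_zero _), Fin.prod_univ_two]

private theorem iso_e2_monomial {R : Type} [CommRing R] (b : Fin 2 →₀ ℕ) (r : R) :
    e2 R (monomial b r) = Polynomial.C (Polynomial.C r * Polynomial.X ^ b 0) *
      Polynomial.X ^ b 1 := by
  rw [iso_monomial, map_mul, map_mul, map_pow, map_pow, iso_e2_X0, iso_e2_X1, iso_e2_C,
    Polynomial.C_mul, Polynomial.C_pow, mul_assoc]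

/-- coefficients -/
theorem e2_coeff {R : Type} [CommRing R] (p : MvPolynomial (Fin 2) R) (i j : ℕ) :
    ((e2 R p).coeff j).coeff i = p.coeff (mk i j) := by
  induction p using MvPolynomial.induction_on' with
  | monomial b r =>
    rw [iso_e2_monomial, Polynomial.coeff_C_mul, Polynomial.coeff_X_pow, coeff_monomial]
    have h : (b = mk i j) ↔ (i = b 0 ∧ j = b 1) := by
      constructor
      · intro h
        rw [h]
        exact ⟨(mk_apply i j).1.symm, (mk_apply i j).2.symm⟩
      · rintro ⟨h1, h2⟩
        rw [h1, h2, mk_eq]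
    by_cases hj : j = b 1
    · rw [if_pos hj, mul_one, Polynomial.coeff_C_mul, Polynomial.coeff_X_pow]
      by_cases hi : i = b 0
      · rw [if_pos hi, if_pos (h.2 ⟨hi, hj⟩), mul_one]
      · rw [if_neg hi, if_neg (fun h' => hi (h.1 h').1), mul_zero]
    · rw [if_neg hj, mul_zero, Polynomial.coeff_zero, if_neg (fun h' => hj (h.1 h').2)]
  | add p q hp hq => rw [map_add, Polynomial.coeff_add, Polynomial.coeff_add, coeff_add, hp, hq]

/-- values -/
theorem e2_evalEval {R : Type} [CommRing R] (p : MvPolynomial (Fin 2) R) (x y : R) :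
    (e2 R p).evalEval x y = aeval ![x, y] p := by
  induction p using MvPolynomial.induction_on' with
  | monomial b r =>
    rw [iso_e2_monomial, iso_monomial]
    simp [Polynomial.evalEval, mul_assoc]
  | add p q hp hq => rw [map_add, Polynomial.evalEval_add, map_add, hp, hq]

/-- values, the point has coordinates in an algebra and only the second variable is evaluated
after the substitution `X ↦ x` -/
theorem e2_eval₂ {R L : Type} [CommRing R] [CommRing L] [Algebra R L]
    (p : MvPolynomial (Fin 2) R) (x y : L) :
    (e2 R p).eval₂ (Polynomial.aeval x : Polynomial R →ₐ[R] L).toRingHom y = aeval ![x, y] p := by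
  induction p using MvPolynomial.induction_on' with
  | monomial b r =>
    rw [iso_e2_monomial, iso_monomial, Polynomial.eval₂_mul, Polynomial.eval₂_C,
      Polynomial.eval₂_X_pow]
    simp [mul_assoc]
  | add p q hp hq => rw [map_add, Polynomial.eval₂_add, map_add, hp, hq]

/-- change of the coefficients -/
theorem map_aeval {R S : Type} [CommRing R] [CommRing S] (φ : R →+* S)
    (p : MvPolynomial (Fin 2) R) (x y : R) :
    aeval ![φ x, φ y] (map φ p) = φ (aeval ![x, y] p) := by
  induction p using MvPolynomial.induction_on' with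
  | monomial b r =>
    rw [map_monomial, iso_monomial, iso_monomial]
    simp
  | add p q hp hq => rw [map_add, map_add, map_add, map_add, hp, hq]

/-- a sum over the support -/
theorem aeval_sum {R A : Type} [CommRing R] [CommRing A] [Algebra R A]
    (p : MvPolynomial (Fin 2) R) (x y : A) :
    aeval ![x, y] p = ∑ c ∈ p.support, algebraMap R A (p.coeff c) * (x ^ c 0 * y ^ c 1) := by
  rw [aeval_def, eval₂_eq']
  refine Finset.sum_congr rfl fun c _ => ?_
  rw [Fin.prod_univ_two]
  rfl

end Pool.Agent.PX
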