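import Pool.Agent.Lib.MP_c95b3b_ag_PX.Defs

/-! MP_c95b3b_ag, project (P), block X: leading terms of products. -/

set_option autoImplicit false

open MvPolynomial

namespace Pool.Agent.PX

theorem ky_add (u : ℤ × ℤ) (a b : Fin 2 →₀ ℕ) : ky u (a + b) = ky u a + ky u b := by
  simp only [ky, Finsupp.add_apply, Nat.cast_add]
  ring

theorem ky_inj {u v : ℤ × ℤ} (huv : u.1 * v.2 ≠ u.2 * v.1) {a b : Fin 2 →₀ ℕ}
    (h1 : ky u a = ky u b) (h2 : ky v a = ky v b) : a = b := by
  simp only [ky] at h1 h2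
  have hd : u.1 * v.2 - u.2 * v.1 ≠ 0 := sub_ne_zero.mpr huv
  have e0 : (u.1 * v.2 - u.2 * v.1) * ((a 0 : ℤ) - (b 0 : ℤ)) = 0 := by
    linear_combination v.2 * h1 - u.2 * h2
  have e1 : (u.1 * v.2 - u.2 * v.1) * ((a 1 : ℤ) - (b 1 : ℤ)) = 0 := by
    linear_combination u.1 * h2 - v.1 * h1
  have f0 : (a 0 : ℤ) - (b 0 : ℤ) = 0 := (mul_eq_zero.mp e0).resolve_left hd
  have f1 : (a 1 : ℤ) - (b 1 : ℤ) = 0 := (mul_eq_zero.mp e1).resolve_left hd
  ext i
  fin_cases i
  · show a 0 = b 0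
    omega
  · show a 1 = b 1
    omega

theorem exists_topAt {S : Finset (Fin 2 →₀ ℕ)} (hS : S.Nonempty) (u v : ℤ × ℤ) :
    ∃ a, TopAt S u v a := by
  classical
  obtain ⟨a0, ha0, hmax0⟩ := Finset.exists_max_image S (ky u) hS
  obtain ⟨a, ha, hmax⟩ := Finset.exists_max_image (S.filter (fun c => ky u c = ky u a0)) (ky v)
    ⟨a0, Finset.mem_filter.mpr ⟨ha0, rfl⟩⟩
  rw [Finset.mem_filter] at ha
  refine ⟨a, ha.1, fun c hc => ?_⟩
  rcases lt_or_eq_of_le (hmax0 c hc) with h | h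
  · left
    rw [ha.2]
    exact h
  · right
    refine ⟨h.trans ha.2.symm, hmax c (Finset.mem_filter.mpr ⟨hc, h⟩)⟩

/-- the product of the leading terms -/
theorem top_mul {R : Type} [CommRing R] [IsDomain R] {p q : MvPolynomial (Fin 2) R}
    {u v : ℤ × ℤ} (huv : u.1 * v.2 ≠ u.2 * v.1) {a b : Fin 2 →₀ ℕ}
    (ha : TopAt p.support u v a) (hb : TopAt q.support u v b) :
    TopAt (p * q).support u v (a + b) := by
  classical
  have hcoef : coeff (a + b) (p * q) = coeff a p * coeff b q := by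
    rw [coeff_mul]
    refine Finset.sum_eq_single_of_mem (a, b) (Finset.HasAntidiagonal.mem_antidiagonal.mpr rfl) ?_
    rintro ⟨c, d⟩ hcd hne
    rw [Finset.HasAntidiagonal.mem_antidiagonal] at hcd
    simp only at hcd
    by_contra hprod
    have hc : c ∈ p.support := by
      rw [mem_support_iff]
      intro h
      exact hprod (by rw [h, zero_mul])
    have hd : d ∈ q.support := by
      rw [mem_support_iff]
      intro h
      exact hprod (by rw [h, mul_zero])
    have k1 : ky u c + ky u d = ky u a + ky u b := by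
      rw [← ky_add, ← ky_add, hcd]
    have k2 : ky v c + ky v d = ky v a + ky v b := by
      rw [← ky_add, ← ky_add, hcd]
    have hc' := ha.2 c hc
    have hd' := hb.2 d hd
    have hac : c = a := by
      apply ky_inj huv
      · omega
      · omega
    have hbd : d = b := by
      apply ky_inj huv
      · omega
      · omega
    exact hne (by rw [hac, hbd])
  refine ⟨?_, ?_⟩
  · rw [mem_support_iff, hcoef]
    exact mul_ne_zero (mem_support_iff.mp ha.1) (mem_support_iff.mp hb.1)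
  · intro c hc
    obtain ⟨x, hx, y, hy, hxy⟩ := Finset.mem_add.mp (support_mul p q hc)
    have hx' := ha.2 x hx
    have hy' := hb.2 y hy
    have k1 : ky u c = ky u x + ky u y := by rw [← hxy, ky_add]
    have k2 : ky v c = ky v x + ky v y := by rw [← hxy, ky_add]
    rw [ky_add, ky_add]
    omega

private theorem perp_ne {u : ℤ × ℤ} (hu : u ≠ 0) : u.1 * u.1 + u.2 * u.2 ≠ 0 := by
  intro h
  apply hu
  have h1 : u.1 = 0 := by nlinarith [mul_self_nonneg u.1, mul_self_nonneg u.2]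
  have h2 : u.2 = 0 := by nlinarith [mul_self_nonneg u.1, mul_self_nonneg u.2]
  exact Prod.ext h1 h2

private theorem supp_ne {R : Type} [CommRing R] {p : MvPolynomial (Fin 2) R} (hp : p ≠ 0) :
    p.support.Nonempty := by
  rw [Finset.nonempty_iff_ne_empty]
  intro h
  exact hp (support_eq_empty.mp h)

/-- the edges of a factor are edges of the product -/
theorem edge_mul {R : Type} [CommRing R] [IsDomain R] {p q : MvPolynomial (Fin 2) R}
    (hpq : p * q ≠ 0) {u : ℤ × ℤ} (h : EdgeS p.support u) (hu : u ≠ 0) :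
    EdgeS (p * q).support u := by
  classical
  have hp : p ≠ 0 := left_ne_zero_of_mul hpq
  have hq : q ≠ 0 := right_ne_zero_of_mul hpq
  obtain ⟨x, hx, y, hy, hxy, hk, hmax⟩ := h
  have hn := perp_ne hu
  have huv1 : u.1 * (-u.2, u.1).2 ≠ u.2 * (-u.2, u.1).1 := by
    show u.1 * u.1 ≠ u.2 * (-u.2)
    intro h
    apply hn
    linear_combination h
  have huv2 : u.1 * (u.2, -u.1).2 ≠ u.2 * (u.2, -u.1).1 := by
    show u.1 * (-u.1) ≠ u.2 * u.2
    intro h
    apply hn
    linear_combination -h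
  obtain ⟨a1, ha1⟩ := exists_topAt (supp_ne hp) u (-u.2, u.1)
  obtain ⟨a2, ha2⟩ := exists_topAt (supp_ne hp) u (u.2, -u.1)
  obtain ⟨b1, hb1⟩ := exists_topAt (supp_ne hq) u (-u.2, u.1)
  obtain ⟨b2, hb2⟩ := exists_topAt (supp_ne hq) u (u.2, -u.1)
  have t1 := top_mul huv1 ha1 hb1
  have t2 := top_mul huv2 ha2 hb2
  have hneg : ∀ c : Fin 2 →₀ ℕ, ky (u.2, -u.1) c = - ky (-u.2, u.1) c := by
    intro c
    simp only [ky]
    ring
  have hxyv : ky (-u.2, u.1) x ≠ ky (-u.2, u.1) y := fun h' => hxy (ky_inj huv1 hk h')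
  have mx1 := ha1.2 x hx
  have my1 := ha1.2 y hy
  have mx2 := ha2.2 x hx
  have my2 := ha2.2 y hy
  have na1 := hmax a1 ha1.1
  have na2 := hmax a2 ha2.1
  have mb12 := hb1.2 b2 hb2.1
  have mb21 := hb2.2 b1 hb1.1
  rw [hneg, hneg] at mx2 my2 mb21
  refine ⟨a1 + b1, t1.1, a2 + b2, t2.1, ?_, ?_, ?_⟩
  · intro hEq
    have e1 : ky (-u.2, u.1) (a1 + b1) = ky (-u.2, u.1) (a2 + b2) := by rw [hEq]
    rw [ky_add, ky_add] at e1
    omega
  · rw [ky_add, ky_add]
    omega
  · intro c hc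
    have := t1.2 c hc
    omega

/-- bound for the cofactor -/
theorem ky_le_of_mul {R : Type} [CommRing R] [IsDomain R] {p q : MvPolynomial (Fin 2) R}
    {u : ℤ × ℤ} (hu : u ≠ 0) {κ : ℤ} (h : ∀ c ∈ (p * q).support, ky u c ≤ κ) {a b : Fin 2 →₀ ℕ}
    (ha : a ∈ p.support) (hb : b ∈ q.support) : ky u a + ky u b ≤ κ := by
  classical
  have hn := perp_ne hu
  have huv1 : u.1 * (-u.2, u.1).2 ≠ u.2 * (-u.2, u.1).1 := by
    show u.1 * u.1 ≠ u.2 * (-u.2)
    intro h
    apply hn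
    linear_combination h
  obtain ⟨a1, ha1⟩ := exists_topAt ⟨a, ha⟩ u (-u.2, u.1)
  obtain ⟨b1, hb1⟩ := exists_topAt ⟨b, hb⟩ u (-u.2, u.1)
  have t1 := top_mul huv1 ha1 hb1
  have k := h _ t1.1
  rw [ky_add] at k
  have k1 := ha1.2 a ha
  have k2 := hb1.2 b hb
  omega

end Pool.Agent.PX
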